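import Pool.Agent.H468.X15.Lin

/-!
# Local conditions for the descent on the twists of `X_0(15)`
-/

set_option autoImplicit false
set_option linter.all false

namespace Pool.Agent.H468.X15

/-- the symbol of the unit part -/
noncomputable def ps (p : ℕ) (n : ℤ) : ℤ := jacobiSym (n / (p : ℤ) ^ padicValInt p n) p

section

variable {p : ℕ} [hp : Fact p.Prime]

theorem dec {n : ℤ} (hn : n ≠ 0) : ∃ u : ℤ, n = (p : ℤ) ^ (padicValInt p n) * u ∧ ¬ (p : ℤ) ∣ u := by
  obtain ⟨u, hu⟩ := padicValInt_dvd (p := p) n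
  refine ⟨u, hu, ?_⟩
  rintro ⟨w, hw⟩
  have h1 : (p : ℤ) ^ (padicValInt p n + 1) ∣ n := ⟨w, by rw [pow_succ, mul_assoc, ← hw]; exact hu⟩
  rcases (padicValInt_dvd_iff _ n).1 h1 with h | h
  · exact hn h
  · omega

theorem pI : Prime (p : ℤ) := Nat.prime_iff_prime_int.1 hp.out

theorem ppos : (p : ℤ) ≠ 0 := by exact_mod_cast hp.out.ne_zero

theorem val_of {k : ℕ} {u : ℤ} (hu : ¬ (p : ℤ) ∣ u) : padicValInt p ((p : ℤ) ^ k * u) = k := by
  have hu0 : u ≠ 0 := by rintro rfl; exact hu (dvd_zero _)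
  have hn : (p : ℤ) ^ k * u ≠ 0 := mul_ne_zero (pow_ne_zero _ ppos) hu0
  apply le_antisymm
  · by_contra h
    push Not at h
    have h1 : (p : ℤ) ^ (k + 1) ∣ (p : ℤ) ^ k * u := (padicValInt_dvd_iff _ _).2 (Or.inr h)
    rw [pow_succ] at h1
    exact hu (Int.dvd_of_mul_dvd_mul_left (pow_ne_zero _ ppos) h1)
  · rcases (padicValInt_dvd_iff k ((p : ℤ) ^ k * u)).1 (dvd_mul_right _ _) with h | h
    · exact absurd h hn
    · exact h

theorem ps_of {k : ℕ} {u : ℤ} (hu : ¬ (p : ℤ) ∣ u) : ps p ((p : ℤ) ^ k * u) = jacobiSym u p := by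
  unfold ps
  rw [val_of hu, Int.mul_ediv_cancel_left _ (pow_ne_zero _ ppos)]

theorem ps_unit {u : ℤ} (hu : ¬ (p : ℤ) ∣ u) : ps p u = jacobiSym u p := by
  have := ps_of (k := 0) hu
  rwa [pow_zero, one_mul] at this

theorem val_unit {u : ℤ} (hu : ¬ (p : ℤ) ∣ u) : padicValInt p u = 0 :=
  padicValInt.eq_zero_of_not_dvd hu

theorem val_p {u : ℤ} (hu : ¬ (p : ℤ) ∣ u) : padicValInt p ((p : ℤ) * u) = 1 := by
  have := val_of (k := 1) hu
  rwa [pow_one] at this

theorem ps_p {u : ℤ} (hu : ¬ (p : ℤ) ∣ u) : ps p ((p : ℤ) * u) = jacobiSym u p := by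
  have := ps_of (k := 1) hu
  rwa [pow_one] at this

theorem nd_mul {u w : ℤ} (hu : ¬ (p : ℤ) ∣ u) (hw : ¬ (p : ℤ) ∣ w) : ¬ (p : ℤ) ∣ u * w := fun h =>
  (pI.dvd_or_dvd h).elim hu hw

theorem nd_pow {u : ℤ} (hu : ¬ (p : ℤ) ∣ u) (k : ℕ) : ¬ (p : ℤ) ∣ u ^ k := fun h =>
  hu (pI.dvd_of_dvd_pow h)

theorem ps_mul {m n : ℤ} (hm : m ≠ 0) (hn : n ≠ 0) : ps p (m * n) = ps p m * ps p n := by
  obtain ⟨u, hu, hu'⟩ := dec (p := p) hm
  obtain ⟨w, hw, hw'⟩ := dec (p := p) hn
  have e : m * n = (p : ℤ) ^ (padicValInt p m + padicValInt p n) * (u * w) := by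
    calc m * n = ((p : ℤ) ^ (padicValInt p m) * u) * ((p : ℤ) ^ (padicValInt p n) * w) := by
          rw [← hu, ← hw]
      _ = _ := by rw [pow_add]; ring
  have e1 : ps p m = jacobiSym u p := by
    have := ps_of (k := padicValInt p m) hu'
    rwa [← hu] at this
  have e2 : ps p n = jacobiSym w p := by
    have := ps_of (k := padicValInt p n) hw'
    rwa [← hw] at this
  rw [e, ps_of (nd_mul hu' hw'), e1, e2, jacobiSym.mul_left]

theorem val_mul {m n : ℤ} (hm : m ≠ 0) (hn : n ≠ 0) :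
    padicValInt p (m * n) = padicValInt p m + padicValInt p n := padicValInt.mul hm hn

theorem gcd_of {u : ℤ} (hu : ¬ (p : ℤ) ∣ u) : Int.gcd u p = 1 := by
  have h1 := (Int.isCoprime_iff_gcd_eq_one (m := (p : ℤ)) (n := u)).1
    ((Prime.coprime_iff_not_dvd pI).2 hu)
  rwa [Int.gcd_comm] at h1

theorem jac_sq {u : ℤ} (hu : ¬ (p : ℤ) ∣ u) : jacobiSym (u ^ 2) p = 1 :=
  jacobiSym.sq_one' (gcd_of hu)

theorem jac_pm {u : ℤ} (hu : ¬ (p : ℤ) ∣ u) : jacobiSym u p = 1 ∨ jacobiSym u p = -1 :=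
  jacobiSym.eq_one_or_neg_one (gcd_of hu)

theorem jac_mul_self {u : ℤ} (hu : ¬ (p : ℤ) ∣ u) : jacobiSym u p * jacobiSym u p = 1 := by
  rcases jac_pm hu with h | h <;> rw [h] <;> norm_num

theorem jac_mul_sq {u w : ℤ} (hw : ¬ (p : ℤ) ∣ w) : jacobiSym (u * w ^ 2) p = jacobiSym u p := by
  rw [jacobiSym.mul_left, jac_sq hw, mul_one]

theorem jac_congr {u w : ℤ} (h : (p : ℤ) ∣ u - w) : jacobiSym u p = jacobiSym w p := by
  exact jacobiSym.mod_left' (Int.ModEq.symm ((Int.modEq_iff_dvd).2 h))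

theorem ps_sq {n : ℤ} (hn : n ≠ 0) : ps p (n ^ 2) = 1 := by
  obtain ⟨u, hu, hu'⟩ := dec (p := p) hn
  rw [sq, ps_mul hn hn]
  have e1 : ps p n = jacobiSym u p := by
    have := ps_of (k := padicValInt p n) hu'
    rwa [← hu] at this
  rw [e1, jac_mul_self hu']

theorem val_sq {n : ℤ} (hn : n ≠ 0) : padicValInt p (n ^ 2) = 2 * padicValInt p n := by
  rw [sq, val_mul hn hn, two_mul]

theorem ps_pm {n : ℤ} (hn : n ≠ 0) : ps p n = 1 ∨ ps p n = -1 := by
  obtain ⟨u, hu, hu'⟩ := dec (p := p) hn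
  have e1 : ps p n = jacobiSym u p := by
    have := ps_of (k := padicValInt p n) hu'
    rwa [← hu] at this
  rw [e1]
  exact jac_pm hu'

theorem nd_of_coprime {r t : ℤ} (hrt : IsCoprime r t) (h : (p : ℤ) ∣ r) : ¬ (p : ℤ) ∣ t := fun h' =>
  pI.not_unit (hrt.isUnit_of_dvd' h h')

/-- the local condition at a prime divisor of `D = p D'` -/
theorem loc (h7 : 7 ≤ p) {D' r t s : ℤ} (hD : ¬ (p : ℤ) ∣ D') (hrt : IsCoprime r t)
    (hA : r ≠ 0) (hB : r + 16 * (p * D') * t ^ 2 ≠ 0) (hC : r + 25 * (p * D') * t ^ 2 ≠ 0)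
    (h : r * (r + 16 * (p * D') * t ^ 2) * (r + 25 * (p * D') * t ^ 2) = s ^ 2) :
    (ps p r = if Odd (padicValInt p r) then jacobiSym (-D') p else 1) ∧
    (ps p (r + 16 * (p * D') * t ^ 2) =
      (if Odd (padicValInt p (r + 16 * (p * D') * t ^ 2)) then jacobiSym D' p else 1) *
        (if Odd (padicValInt p r) then jacobiSym (-1) p else 1)) := by
  have hs : s ≠ 0 := by
    rintro rfl
    rw [zero_pow two_ne_zero] at h
    exact mul_ne_zero (mul_ne_zero hA hB) hC h
  have n3 : ¬ (p : ℤ) ∣ 3 := by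
    intro h3
    have := Int.le_of_dvd (by norm_num) h3
    omega
  have n4 : ¬ (p : ℤ) ∣ 4 := by
    intro h3
    have := Int.le_of_dvd (by norm_num) h3
    omega
  have n5 : ¬ (p : ℤ) ∣ 5 := by
    intro h3
    have := Int.le_of_dvd (by norm_num) h3
    omega
  have n1 : ¬ (p : ℤ) ∣ -1 := by
    intro h3
    have := Int.le_of_dvd (by norm_num) ((dvd_neg).1 h3 : (p : ℤ) ∣ 1)
    omega
  have hps := congrArg (ps p) h
  rw [ps_mul (mul_ne_zero hA hB) hC, ps_mul hA hB, ps_sq hs] at hps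
  have hval := congrArg (padicValInt p) h
  rw [val_mul (mul_ne_zero hA hB) hC, val_mul hA hB, val_sq hs] at hval
  by_cases hr : (p : ℤ) ∣ r
  · have ht := nd_of_coprime hrt hr
    obtain ⟨r1, rfl⟩ := hr
    have eB : (p : ℤ) * r1 + 16 * (p * D') * t ^ 2 = p * (r1 + 16 * D' * t ^ 2) := by ring
    have eC : (p : ℤ) * r1 + 25 * (p * D') * t ^ 2 = p * (r1 + 25 * D' * t ^ 2) := by ring
    rw [eB] at hB hps hval ⊢
    rw [eC] at hC hps hval
    have hr1 : r1 ≠ 0 := by rintro rfl; exact hA (mul_zero _)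
    by_cases hr2 : (p : ℤ) ∣ r1
    · -- the valuation of `r` is at least two
      have uB : ¬ (p : ℤ) ∣ r1 + 16 * D' * t ^ 2 := by
        intro h'
        have h1 : (p : ℤ) ∣ D' * (4 * t) ^ 2 := by
          have := dvd_sub h' hr2
          have e : r1 + 16 * D' * t ^ 2 - r1 = D' * (4 * t) ^ 2 := by ring
          rwa [e] at this
        exact nd_mul hD (nd_pow (nd_mul n4 ht) 2) h1
      have uC : ¬ (p : ℤ) ∣ r1 + 25 * D' * t ^ 2 := by
        intro h'
        have h1 : (p : ℤ) ∣ D' * (5 * t) ^ 2 := by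
          have := dvd_sub h' hr2
          have e : r1 + 25 * D' * t ^ 2 - r1 = D' * (5 * t) ^ 2 := by ring
          rwa [e] at this
        exact nd_mul hD (nd_pow (nd_mul n5 ht) 2) h1
      have jB : jacobiSym (r1 + 16 * D' * t ^ 2) p = jacobiSym D' p := by
        rw [← jac_mul_sq (u := D') (nd_mul n4 ht)]
        refine jac_congr ?_
        have e : r1 + 16 * D' * t ^ 2 - D' * (4 * t) ^ 2 = r1 := by ring
        rw [e]; exact hr2
      have jC : jacobiSym (r1 + 25 * D' * t ^ 2) p = jacobiSym D' p := by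
        rw [← jac_mul_sq (u := D') (nd_mul n5 ht)]
        refine jac_congr ?_
        have e : r1 + 25 * D' * t ^ 2 - D' * (5 * t) ^ 2 = r1 := by ring
        rw [e]; exact hr2
      rw [ps_p uB, ps_p uC, jB, jC, mul_assoc, jac_mul_self hD, mul_one] at hps
      rw [val_p uB, val_p uC] at hval
      have hev : ¬ Odd (padicValInt p ((p : ℤ) * r1)) := by
        rw [Nat.not_odd_iff_even]
        exact ⟨padicValInt p s - 1, by omega⟩
      rw [if_neg hev, if_neg hev, ps_p uB, jB, val_p uB, if_pos odd_one, mul_one]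
      exact ⟨hps, rfl⟩
    · -- the valuation of `r` is one
      have vA := val_p hr2
      rw [vA] at hval
      rw [ps_p hr2] at hps
      rw [vA, if_pos odd_one, if_pos odd_one, ps_p hr2]
      by_cases k1 : (p : ℤ) ∣ r1 + 16 * D' * t ^ 2
      · have uC : ¬ (p : ℤ) ∣ r1 + 25 * D' * t ^ 2 := by
          intro h'
          have h1 : (p : ℤ) ∣ D' * (3 * t) ^ 2 := by
            have := dvd_sub h' k1
            have e : r1 + 25 * D' * t ^ 2 - (r1 + 16 * D' * t ^ 2) = D' * (3 * t) ^ 2 := by ring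
            rwa [e] at this
          exact nd_mul hD (nd_pow (nd_mul n3 ht) 2) h1
        have jA : jacobiSym r1 p = jacobiSym (-D') p := by
          rw [← jac_mul_sq (u := -D') (nd_mul n4 ht)]
          refine jac_congr ?_
          have e : r1 - -D' * (4 * t) ^ 2 = r1 + 16 * D' * t ^ 2 := by ring
          rw [e]; exact k1
        have jC : jacobiSym (r1 + 25 * D' * t ^ 2) p = jacobiSym D' p := by
          rw [← jac_mul_sq (u := D') (nd_mul n3 ht)]
          refine jac_congr ?_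
          have e : r1 + 25 * D' * t ^ 2 - D' * (3 * t) ^ 2 = r1 + 16 * D' * t ^ 2 := by ring
          rw [e]; exact k1
        rw [val_p uC] at hval
        rw [ps_p uC, jC, jA] at hps
        have hev : ¬ Odd (padicValInt p ((p : ℤ) * (r1 + 16 * D' * t ^ 2))) := by
          rw [Nat.not_odd_iff_even]
          exact ⟨padicValInt p s - 1, by omega⟩
        rw [if_neg hev, one_mul]
        refine ⟨jA, ?_⟩
        have e1 : jacobiSym (-D') p = jacobiSym (-1) p * jacobiSym D' p := by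
          rw [← jacobiSym.mul_left]; congr 1; ring
        rw [e1] at hps
        have e2 := jac_mul_self hD
        have e3 := jac_mul_self n1
        generalize ps p ((p : ℤ) * (r1 + 16 * D' * t ^ 2)) = X at *
        have : X = jacobiSym (-1) p * (jacobiSym (-1) p * jacobiSym D' p * X * jacobiSym D' p) := by
          linear_combination (-X) * e3 - (X * jacobiSym (-1) p * jacobiSym (-1) p) * e2
        rw [hps, mul_one] at this
        exact this
      · have vB := val_p k1
        by_cases k2 : (p : ℤ) ∣ r1 + 25 * D' * t ^ 2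
        · have jA : jacobiSym r1 p = jacobiSym (-D') p := by
            rw [← jac_mul_sq (u := -D') (nd_mul n5 ht)]
            refine jac_congr ?_
            have e : r1 - -D' * (5 * t) ^ 2 = r1 + 25 * D' * t ^ 2 := by ring
            rw [e]; exact k2
          have jB : jacobiSym (r1 + 16 * D' * t ^ 2) p = jacobiSym (-D') p := by
            rw [← jac_mul_sq (u := -D') (nd_mul n3 ht)]
            refine jac_congr ?_
            have e : r1 + 16 * D' * t ^ 2 - -D' * (3 * t) ^ 2 = r1 + 25 * D' * t ^ 2 := by ring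
            rw [e]; exact k2
          rw [vB, if_pos odd_one, ps_p k1, jB]
          refine ⟨jA, ?_⟩
          rw [← jacobiSym.mul_left]
          congr 1
          ring
        · exfalso
          rw [vB, val_p k2] at hval
          omega
  · -- `p` does not divide `r`
    have cB : (p : ℤ) ∣ r + 16 * (p * D') * t ^ 2 - r := ⟨16 * D' * t ^ 2, by ring⟩
    have cC : (p : ℤ) ∣ r + 25 * (p * D') * t ^ 2 - r := ⟨25 * D' * t ^ 2, by ring⟩
    have uB : ¬ (p : ℤ) ∣ r + 16 * (p * D') * t ^ 2 := by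
      intro h'
      have := dvd_sub h' cB
      rw [sub_sub_cancel] at this
      exact hr this
    have uC : ¬ (p : ℤ) ∣ r + 25 * (p * D') * t ^ 2 := by
      intro h'
      have := dvd_sub h' cC
      rw [sub_sub_cancel] at this
      exact hr this
    have jB := jac_congr cB
    have jC := jac_congr cC
    rw [ps_unit hr, ps_unit uB, ps_unit uC, jB, jC] at hps
    rw [val_unit hr, val_unit uB, if_neg (by decide), if_neg (by decide), if_neg (by decide),
      ps_unit hr, ps_unit uB, jB]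
    rw [jac_mul_self hr, one_mul] at hps
    exact ⟨hps, by rw [hps]; norm_num⟩

end

end Pool.Agent.H468.X15
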