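import Pool.Agent.H468.X15.Glob
import Pool.Graph.R_seed8.H437R2.Man.MWWeak

/-!
# Finiteness of the rational points on the twists of `X_0(15)`
-/

set_option autoImplicit false
set_option linter.all false

open WeierstrassCurve

namespace Pool.Agent.H468.X15

open Pool.Agent.H437R2.Man.MW
open Pool.Agent.H757_X15.DD (Fm Crit)

/-- a finitely generated abelian group equal to its double up to the elements of order two -/
theorem finite_of_halving2 {G : Type} [AddCommGroup G] (hG : AddGroup.FG G)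
    (h : ∀ P : G, ∃ T Q : G, 2 • T = 0 ∧ 2 • Q = P + T) : Finite G := by
  haveI : Module.Finite ℤ G := Module.Finite.iff_addGroup_fg.2 hG
  let H : AddSubgroup G := (nsmulAddMonoidHom (α := G) 2).ker
  have hH : ∀ T : G, T ∈ H ↔ 2 • T = 0 := fun T => by
    show T ∈ (nsmulAddMonoidHom (α := G) 2).ker ↔ _
    rw [AddMonoidHom.mem_ker]; rfl
  set K := G ⧸ H with hK
  haveI : Module.Finite ℤ K := by
    have hs : Function.Surjective (QuotientAddGroup.mk' H) :=
      QuotientAddGroup.mk'_surjective _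
    exact Module.Finite.of_surjective (QuotientAddGroup.mk' H).toIntLinearMap hs
  have hdiv : ∀ x : K, ∃ y : K, 2 • y = x := by
    intro x
    obtain ⟨P, rfl⟩ := QuotientAddGroup.mk'_surjective H x
    obtain ⟨T, Q, hT, hQ⟩ := h P
    refine ⟨QuotientAddGroup.mk' _ Q, ?_⟩
    rw [← map_nsmul, hQ, map_add]
    have : QuotientAddGroup.mk' H T = 0 :=
      (QuotientAddGroup.eq_zero_iff T).2 ((hH T).2 hT)
    rw [this, add_zero]
  have hN : (⊤ : Submodule ℤ K) ≤ (Ideal.span {(2 : ℤ)}) • (⊤ : Submodule ℤ K) := by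
    intro x _
    obtain ⟨y, hy⟩ := hdiv x
    rw [← hy]
    have : (2 : ℕ) • y = (2 : ℤ) • y := by norm_cast
    rw [this]
    exact Submodule.smul_mem_smul (Ideal.subset_span rfl) trivial
  obtain ⟨r, hr1, hr2⟩ := Submodule.exists_sub_one_mem_and_smul_eq_zero_of_fg_of_le_smul _ _
    (Module.finite_def.1 inferInstance) hN
  have hr0 : r ≠ 0 := by
    rintro rfl
    rw [Ideal.mem_span_singleton] at hr1
    omega
  have htor : IsAddTorsion G := by
    intro P
    rw [isOfFinAddOrder_iff_zsmul_eq_zero]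
    refine ⟨2 * r, mul_ne_zero two_ne_zero hr0, ?_⟩
    have h1 : r • (QuotientAddGroup.mk' H P) = 0 := hr2 _ trivial
    rw [← map_zsmul] at h1
    have h2 : r • P ∈ H := (QuotientAddGroup.eq_zero_iff _).1 h1
    have h3 := (hH _).1 h2
    rw [mul_zsmul]
    exact_mod_cast h3
  exact AddCommGroup.finite_of_fg_isAddTorsion G htor

/-- the denominators are squares -/
theorem den_sq {D : ℕ} {x y : ℚ} (hy : y ≠ 0)
    (h : y ^ 2 = (x + 0) * (x + 16 * D) * (x + 25 * D)) :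
    ∃ r t s : ℤ, t ≠ 0 ∧ IsCoprime r t ∧ s ≠ 0 ∧ x = r / t ^ 2 ∧
      r * (r + 16 * D * t ^ 2) * (r + 25 * D * t ^ 2) = s ^ 2 := by
  obtain ⟨n, d, hd, hc, hx⟩ : ∃ n d : ℤ, 0 < d ∧ IsCoprime n d ∧ x = n / d := by
    refine ⟨x.num, x.den, by exact_mod_cast x.den_pos, ?_, ?_⟩
    · rw [Int.isCoprime_iff_nat_coprime]
      simpa using x.reduced
    · exact (Rat.num_div_den x).symm
  have hdq : (d : ℚ) ≠ 0 := by exact_mod_cast hd.ne'
  set N : ℤ := n * (n + 16 * D * d) * (n + 25 * D * d) with hN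
  have e1 : (y * d ^ 2) ^ 2 = ((d * N : ℤ) : ℚ) := by
    rw [mul_pow, h, hx, hN]
    push_cast
    field_simp
    ring
  obtain ⟨z, hz⟩ : ∃ z : ℤ, y * d ^ 2 = z := by
    have h1 : IsSquare (((d * N : ℤ)) : ℚ) := ⟨y * d ^ 2, by rw [← e1]; ring⟩
    rw [Rat.isSquare_intCast_iff] at h1
    obtain ⟨w, hw⟩ := h1
    have h2 : (y * d ^ 2) ^ 2 = (w : ℚ) ^ 2 := by rw [e1, hw]; push_cast; ring
    rcases sq_eq_sq_iff_eq_or_eq_neg.mp h2 with h3 | h3
    · exact ⟨w, h3⟩
    · exact ⟨-w, by rw [h3]; push_cast; ring⟩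
  have e2 : d * N = z ^ 2 := by
    have : ((d * N : ℤ) : ℚ) = ((z ^ 2 : ℤ) : ℚ) := by rw [← e1, hz]; push_cast; ring
    exact_mod_cast this
  have hcop : IsCoprime d N := by
    have c1 : IsCoprime d n := hc.symm
    have c2 : IsCoprime d (n + 16 * D * d) := by
      have := c1.add_mul_left_right (16 * D)
      rwa [mul_comm d] at this
    have c3 : IsCoprime d (n + 25 * D * d) := by
      have := c1.add_mul_left_right (25 * D)
      rwa [mul_comm d] at this
    exact (c1.mul_right c2).mul_right c3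
  obtain ⟨t, ht⟩ : ∃ t : ℤ, d = t ^ 2 := by
    obtain ⟨t, ht | ht⟩ := Int.sq_of_isCoprime hcop e2
    · exact ⟨t, ht⟩
    · exfalso
      nlinarith [sq_nonneg t]
  have ht0 : t ≠ 0 := by
    rintro rfl
    rw [ht] at hd
    norm_num at hd
  have hzt : t ∣ z := by
    rw [← Int.pow_dvd_pow_iff (two_ne_zero : (2 : ℕ) ≠ 0), ← e2, ht]
    exact dvd_mul_right _ _
  obtain ⟨s, hs⟩ := hzt
  have e3 : N = s ^ 2 := by
    have : t ^ 2 * N = t ^ 2 * s ^ 2 := by rw [← ht, e2, hs, ht]; ring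
    exact mul_left_cancel₀ (pow_ne_zero 2 ht0) this
  have hs0 : s ≠ 0 := by
    rintro rfl
    rw [mul_zero] at hs
    rw [hs] at hz
    rw [Int.cast_zero] at hz
    exact (mul_ne_zero hy (pow_ne_zero 2 hdq)) hz
  refine ⟨n, t, s, ht0, ?_, hs0, by rw [hx, ht]; push_cast; rfl, ?_⟩
  · rw [ht] at hc
    exact (IsCoprime.pow_right_iff (by norm_num)).1 hc
  · rw [← e3, hN, ht]

section dec

variable {K : Type} [Field K] [CharZero K] [DecidableEq K]

/-- the sum with a point of order two -/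
theorem tor {e1 e2 e3 x y r1 r2 r3 : K} (W : WeierstrassCurve K) (hW : W = crv e1 e2 e3)
    (h12 : e1 ≠ e2) (h13 : e1 ≠ e3) (h23 : e2 ≠ e3)
    (h : W.toAffine.Nonsingular x y) (hT : W.toAffine.Nonsingular (-e1) 0) (hx : x + e1 ≠ 0)
    (hr1 : (x + e1) * ((e2 - e1) * (e3 - e1)) = r1 ^ 2) (hr2 : (x + e2) * (e2 - e1) = r2 ^ 2)
    (hr3 : (x + e3) * (e3 - e1) = r3 ^ 2) :
    ∃ Q : W.toAffine.Point, Q + Q = Affine.Point.some x y h + Affine.Point.some (-e1) 0 hT := by
  subst hW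
  have hx' : x ≠ -e1 := fun h' => hx (by rw [h']; ring)
  have hr10 : r1 ≠ 0 := by
    rintro rfl
    rw [zero_pow two_ne_zero] at hr1
    rcases mul_eq_zero.1 hr1 with h' | h'
    · exact hx h'
    · rcases mul_eq_zero.1 h' with h'' | h''
      · exact h12 (sub_eq_zero.1 h'').symm
      · exact h13 (sub_eq_zero.1 h'').symm
  rw [Affine.Point.add_of_X_ne hx']
  have hX : (crv e1 e2 e3).toAffine.addX x (-e1) ((crv e1 e2 e3).toAffine.slope x (-e1) y 0)
      = numr e1 e2 e3 x (-e1) (y * 0) / (x - -e1) ^ 2 := by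
    have := xRep_add h hT hx'
    rw [Affine.Point.add_of_X_ne hx', Affine.Point.xRep_some] at this
    exact congrFun this 0
  have hx2 : x - -e1 ≠ 0 := by rwa [sub_neg_eq_add]
  apply halve h12 h13 h23 (r1 := r1 / (x + e1)) (r2 := (e2 - e1) * r3 / r1)
    (r3 := (e3 - e1) * r2 / r1)
  · rw [hX, numr]
    rw [div_pow, ← hr1, sub_neg_eq_add]
    field_simp
    ring
  · rw [hX, numr, div_pow, mul_pow, ← hr1, ← hr3, sub_neg_eq_add]
    have k1 : e2 - e1 ≠ 0 := sub_ne_zero.2 (Ne.symm h12)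
    have k2 : e3 - e1 ≠ 0 := sub_ne_zero.2 (Ne.symm h13)
    field_simp
    ring
  · rw [hX, numr, div_pow, mul_pow, ← hr1, ← hr2, sub_neg_eq_add]
    have k1 : e2 - e1 ≠ 0 := sub_ne_zero.2 (Ne.symm h12)
    have k2 : e3 - e1 ≠ 0 := sub_ne_zero.2 (Ne.symm h13)
    field_simp
    ring

theorem two_tor {e1 e2 e3 e : K} (W : WeierstrassCurve K) (hW : W = crv e1 e2 e3)
    (hT : W.toAffine.Nonsingular e 0) : 2 • (Affine.Point.some e 0 hT) = 0 := by
  subst hW
  rw [two_nsmul]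
  apply Affine.Point.add_of_Y_eq rfl
  simp [Affine.negY, crv]

end dec

end Pool.Agent.H468.X15
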