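import Pool.Agent.H468.X15.Fin2
import Pool.Graph.R_seed8.Y687.K2.RankForm
import Pool.Graph.R_pool_sql_team_seeded_620a6dc7.H757_X15.CS.FinC
import Pool.Graph.R_pool_sql_team_seeded_620a6dc7.H757_X15.BS.FinB
import Pool.Graph.R_pool_sql_team_seeded_620a6dc7.H757_X15.DN.Fin
import Pool.Graph.R_pool_sql_team_seeded_620a6dc7.H757_X15.DN.Den2
import Pool.Graph.R_pool_sql_team_seeded_620a6dc7.H757_X15.MT.Sym15
import Pool.Graph.R_pool_sql_team_seeded_620a6dc7.H757_X15.MT.Lfin15
import Pool.Graph.R_pool_sql_team_seeded_620a6dc7.H735X.Fin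

/-!
# The rank form for the twists of `X_0(15)` satisfying the criterion
-/

set_option autoImplicit false
set_option linter.all false

open scoped Classical

namespace Pool.Agent.H468.X15

open Pool.Agent.H757_X15.DD (Fm Crit)
open Pool.Agent.H757_X15 (E15 Symb15 facL)
open Pool.Agent.Y687 (SS RankBSD)

/-- the sum of the symbols does not vanish -/
theorem ss_ne {s : ℚ → ℤ} {a : ℕ → ℤ} (hs : Symb15 s a) {D : ℕ} (hD : Squarefree D) (hF : Fm D)
    (h1 : D ≠ 1) (hC : Crit D) : SS s D D ≠ 0 := by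
  obtain ⟨y, hy, hodd⟩ := Pool.Agent.H757_X15.CC.t_MAINC2 Pool.Agent.H757_X15.BB.t_BIL s a hs D hD
    hF h1
  have hy1 : Odd y := hodd.2 hC
  have hy0 : y ≠ 0 := by
    rintro rfl
    exact absurd hy1 (by decide)
  have hs0 : s 0 ≠ 0 := by
    intro h0
    have := hs.odd0
    rw [h0] at this
    exact absurd this (by decide)
  rw [hy]
  exact mul_ne_zero hs0 (mul_ne_zero (pow_ne_zero _ (by norm_num)) (pow_ne_zero _ hy0))

theorem rankBSD_of {D : ℕ} (hD : Squarefree D) (hF : Fm D) (h1 : D ≠ 1) (hC : Crit D) :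
    RankBSD (-12987 * (D : ℤ) ^ 2) (-263466 * (D : ℤ) ^ 3) := by
  obtain ⟨s, L, Op, Om, hOp, hOm, g2, g3, hL, hsym, hre⟩ := Pool.Agent.H757_X15.t_SYMB
  have hne := ss_ne hsym hD hF h1 hC
  have hD1 : 1 < D := by
    have := hD.ne_zero
    omega
  have h4 : D % 4 = 1 := by rcases hF with h | h <;> omega
  have h15 : Nat.Coprime D 15 := by
    have h3 : Nat.Coprime D 3 := by
      rw [Nat.coprime_comm, Nat.Prime.coprime_iff_not_dvd Nat.prime_three]
      rcases hF with h | h <;> omega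
    have h5 : Nat.Coprime D 5 := by
      rw [Nat.coprime_comm, Nat.Prime.coprime_iff_not_dvd Nat.prime_five]
      rcases hF with h | h <;> omega
    exact Nat.Coprime.mul_right h3 h5
  obtain ⟨f, hf, hp, hf1⟩ := Pool.Agent.H757_X15.t_EUL s Op hOp hre D hD hD1 h4 h15 hne
  exact Pool.Agent.Y687.rankBSD hf hp hf1 (finite_set hD hF hC h1)

end Pool.Agent.H468.X15
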