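import Pool.Agent.H468.X15.Fin

/-!
# Finiteness of the rational points on the twists of `X_0(15)`: the main theorem
-/

set_option autoImplicit false
set_option linter.all false

open WeierstrassCurve

namespace Pool.Agent.H468.X15

open Pool.Agent.H437R2.Man.MW
open Pool.Agent.H757_X15.DD (Fm Crit)

theorem sq3 {u v w y g : ℚ} (h : y ^ 2 = u * v * w) (hy : y ≠ 0)
    {c : ℚ} (huv : u * v * g = c ^ 2) : ∃ c' : ℚ, w * g = c' ^ 2 := by
  have hne : u * v ≠ 0 := by
    intro h0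
    rw [h0, zero_mul] at h
    exact pow_ne_zero 2 hy h
  refine ⟨y * c / (u * v), ?_⟩
  rw [div_pow, mul_pow, h, ← huv, eq_div_iff (pow_ne_zero 2 hne)]
  ring

theorem halving {D : ℕ} (hD : Squarefree D) (hF : Fm D) (hC : Crit D) (h1 : D ≠ 1)
    (P : Pt (0 : ℚ) (16 * D) (25 * D)) :
    ∃ T Q : Pt (0 : ℚ) (16 * D) (25 * D), 2 • T = 0 ∧ 2 • Q = P + T := by
  have hD0 : (D : ℚ) ≠ 0 := by exact_mod_cast hD.ne_zero
  have q12 : (0 : ℚ) ≠ 16 * D := (mul_ne_zero (by norm_num) hD0).symm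
  have q13 : (0 : ℚ) ≠ 25 * D := (mul_ne_zero (by norm_num) hD0).symm
  have q23 : (16 : ℚ) * D ≠ 25 * D := by
    intro h
    apply hD0
    linarith
  rcases P with _ | ⟨x, y, hP⟩
  · exact ⟨0, 0, smul_zero _, by rw [smul_zero]; exact (add_zero _).symm⟩
  · by_cases hy : y = 0
    · subst hy
      have h2 := two_tor (crv (0 : ℚ) (16 * D) (25 * D)) rfl hP
      exact ⟨Affine.Point.some x 0 hP, 0, h2, by rw [smul_zero, ← two_nsmul]; exact h2.symm⟩
    · have heq := crv_eqn.1 hP.1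
      obtain ⟨r, t, s, ht, hrt, hs, hx, hrs⟩ := den_sq hy heq
      have htq : (t : ℚ) ≠ 0 := by exact_mod_cast ht
      have ex0 : x + 0 = (r : ℚ) / t ^ 2 := by rw [add_zero]; exact hx
      have ex1 : x + 16 * D = ((r + 16 * D * t ^ 2 : ℤ) : ℚ) / t ^ 2 := by
        rw [hx]; push_cast; field_simp
      have hprod : (x + 0) * (x + 16 * D) * (x + 25 * D) ≠ 0 := by
        rw [← heq]; exact pow_ne_zero 2 hy
      have n3 := right_ne_zero_of_mul hprod
      have n2 := right_ne_zero_of_mul (left_ne_zero_of_mul hprod)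
      have n1 := left_ne_zero_of_mul (left_ne_zero_of_mul hprod)
      rcases (classes hD hF hC h1 hrt hs hrs).2 with ⟨⟨a, ha⟩, ⟨b, hb⟩⟩ | ⟨⟨a, ha⟩, ⟨b, hb⟩⟩ |
        ⟨⟨a, ha⟩, ⟨b, hb⟩⟩ | ⟨⟨a, ha⟩, ⟨b, hb⟩⟩
      · have k1 : x + 0 = ((a : ℚ) / t) ^ 2 := by
          rw [ex0, ha]; push_cast; field_simp
        have k2 : x + 16 * D = ((b : ℚ) / t) ^ 2 := by
          rw [ex1, hb]; push_cast; field_simp
        obtain ⟨c, hc⟩ := sq3 (g := 1) heq hy (c := ((a : ℚ) / t) * (b / t)) (by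
          rw [k1, k2]; ring)
        rw [mul_one] at hc
        obtain ⟨Q, hQ⟩ := halve q12 q13 q23 k1 k2 hc hP
        refine ⟨0, Q, smul_zero _, ?_⟩
        rw [two_nsmul, hQ, add_zero]
      · have k1 : x + 0 = ((a : ℚ) / t) ^ 2 := by
          rw [ex0, ha]; push_cast; field_simp
        have hbq : (D : ℚ) * ((r + 16 * D * t ^ 2 : ℤ) : ℚ) = b ^ 2 := by
          have : ((D * (r + 16 * D * t ^ 2) : ℤ) : ℚ) = ((b * b : ℤ) : ℚ) := by rw [hb]
          push_cast at this ⊢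
          rw [this]; ring
        have k2 : (x + 16 * D) * D = ((b : ℚ) / t) ^ 2 := by
          rw [ex1, div_pow, ← hbq]; ring
        have hT : (crv (0 : ℚ) (16 * D) (25 * D)).toAffine.Nonsingular (-0) 0 :=
          crv_nonsing q12 q13 q23 (by ring)
        obtain ⟨c, hc⟩ := sq3 (g := 25 * D) heq hy (c := 5 * (((a : ℚ) / t) * (b / t))) (by
          have : (x + 0) * (x + 16 * D) * (25 * D) = 25 * ((x + 0) * ((x + 16 * D) * D)) := by ring
          rw [this, k1, k2]; ring)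
        obtain ⟨Q, hQ⟩ := tor (e1 := (0 : ℚ)) (e2 := 16 * D) (e3 := 25 * D) (r1 := ((a : ℚ) / t) * (20 * D))
          (r2 := 4 * ((b : ℚ) / t)) (r3 := c) _ rfl q12 q13 q23 hP hT n1
          (by rw [k1]; ring) (by
            have : (x + 16 * D) * (16 * D - 0) = 16 * ((x + 16 * D) * D) := by ring
            rw [this, k2]; ring) (by rw [← hc]; ring)
        exact ⟨Affine.Point.some (-0) 0 hT, Q, two_tor _ rfl hT, by rw [two_nsmul]; exact hQ⟩
      · have haq : -(D : ℚ) * (r : ℚ) = a ^ 2 := by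
          have : ((-D * r : ℤ) : ℚ) = ((a * a : ℤ) : ℚ) := by rw [ha]
          push_cast at this ⊢
          rw [this]; ring
        have hbq : -((r + 16 * D * t ^ 2 : ℤ) : ℚ) = b ^ 2 := by
          have : ((-(r + 16 * D * t ^ 2) : ℤ) : ℚ) = ((b * b : ℤ) : ℚ) := by rw [hb]
          push_cast at this ⊢
          rw [this]; ring
        have k1 : (x + 0) * -D = ((a : ℚ) / t) ^ 2 := by
          rw [ex0, div_pow, ← haq]; ring
        have k2 : -(x + 16 * D) = ((b : ℚ) / t) ^ 2 := by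
          rw [ex1, div_pow, ← hbq]; ring
        have hW : crv (0 : ℚ) (16 * D) (25 * D) = crv (16 * (D : ℚ)) 0 (25 * D) := by
          simp only [crv, WeierstrassCurve.mk.injEq, true_and]
          refine ⟨by ring, by ring, by ring⟩
        have hT : (crv (0 : ℚ) (16 * D) (25 * D)).toAffine.Nonsingular (-(16 * D)) 0 :=
          crv_nonsing q12 q13 q23 (by ring)
        obtain ⟨c, hc⟩ := sq3 (g := 9 * D) heq hy (c := 3 * (((a : ℚ) / t) * (b / t))) (by
          have : (x + 0) * (x + 16 * D) * (9 * D) = 9 * (((x + 0) * -D) * (-(x + 16 * D))) := by ring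
          rw [this, k1, k2]; ring)
        obtain ⟨Q, hQ⟩ := tor (e1 := 16 * (D : ℚ)) (e2 := 0) (e3 := 25 * D)
          (r1 := ((b : ℚ) / t) * (12 * D))
          (r2 := 4 * ((a : ℚ) / t)) (r3 := c) _ hW q12.symm q23 q13 hP hT n2
          (by
            have : (x + 16 * D) * ((0 - 16 * D) * (25 * D - 16 * (D : ℚ))) =
              (-(x + 16 * D)) * (12 * D) ^ 2 := by ring
            rw [this, k2]; ring) (by
            have : (x + 0) * (0 - 16 * (D : ℚ)) = 16 * ((x + 0) * -D) := by ring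
            rw [this, k1]; ring) (by rw [← hc]; ring)
        exact ⟨Affine.Point.some (-(16 * D)) 0 hT, Q, two_tor _ rfl hT, by rw [two_nsmul]; exact hQ⟩
      · have haq : -(D : ℚ) * (r : ℚ) = a ^ 2 := by
          have : ((-D * r : ℤ) : ℚ) = ((a * a : ℤ) : ℚ) := by rw [ha]
          push_cast at this ⊢
          rw [this]; ring
        have hbq : -(D : ℚ) * ((r + 16 * D * t ^ 2 : ℤ) : ℚ) = b ^ 2 := by
          have : ((-D * (r + 16 * D * t ^ 2) : ℤ) : ℚ) = ((b * b : ℤ) : ℚ) := by rw [hb]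
          push_cast at this ⊢
          rw [this]; ring
        have k1 : (x + 0) * -D = ((a : ℚ) / t) ^ 2 := by
          rw [ex0, div_pow, ← haq]; ring
        have k2 : (x + 16 * D) * -D = ((b : ℚ) / t) ^ 2 := by
          rw [ex1, div_pow, ← hbq]; ring
        have hW : crv (0 : ℚ) (16 * D) (25 * D) = crv (25 * (D : ℚ)) 0 (16 * D) := by
          simp only [crv, WeierstrassCurve.mk.injEq, true_and]
          refine ⟨by ring, by ring, by ring⟩
        have hT : (crv (0 : ℚ) (16 * D) (25 * D)).toAffine.Nonsingular (-(25 * D)) 0 :=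
          crv_nonsing q12 q13 q23 (by ring)
        obtain ⟨c, hc⟩ := sq3 (g := 225 * D ^ 2) heq hy (c := 15 * (((a : ℚ) / t) * (b / t))) (by
          have : (x + 0) * (x + 16 * D) * (225 * (D : ℚ) ^ 2) =
            225 * (((x + 0) * -D) * ((x + 16 * D) * -D)) := by ring
          rw [this, k1, k2]; ring)
        obtain ⟨Q, hQ⟩ := tor (e1 := 25 * (D : ℚ)) (e2 := 0) (e3 := 16 * D)
          (r1 := c)
          (r2 := 5 * ((a : ℚ) / t)) (r3 := 3 * ((b : ℚ) / t)) _ hW q13.symm q23.symm q12 hP hT n3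
          (by rw [← hc]; ring) (by
            have : (x + 0) * (0 - 25 * (D : ℚ)) = 25 * ((x + 0) * -D) := by ring
            rw [this, k1]; ring) (by
            have : (x + 16 * D) * (16 * D - 25 * (D : ℚ)) = 9 * ((x + 16 * D) * -D) := by ring
            rw [this, k2]; ring)
        exact ⟨Affine.Point.some (-(25 * D)) 0 hT, Q, two_tor _ rfl hT, by rw [two_nsmul]; exact hQ⟩

theorem finite_pt {D : ℕ} (hD : Squarefree D) (hF : Fm D) (hC : Crit D) (h1 : D ≠ 1) :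
    Finite (Pt (0 : ℚ) (16 * D) (25 * D)) := by
  have hD0 : (D : ℚ) ≠ 0 := by exact_mod_cast hD.ne_zero
  have q12 : (0 : ℚ) ≠ 16 * D := (mul_ne_zero (by norm_num) hD0).symm
  have q13 : (0 : ℚ) ≠ 25 * D := (mul_ne_zero (by norm_num) hD0).symm
  have q23 : (16 : ℚ) * D ≠ 25 * D := by
    intro h
    apply hD0
    linarith
  exact finite_of_halving2 (pt_fg q12 q13 q23) (halving hD hF hC h1)

theorem finite_set {D : ℕ} (hD : Squarefree D) (hF : Fm D) (hC : Crit D) (h1 : D ≠ 1) :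
    {q : ℚ × ℚ | q.2 ^ 2 = q.1 ^ 3 + ((-12987 * (D : ℤ) ^ 2 : ℤ) : ℚ) * q.1 +
      ((-263466 * (D : ℤ) ^ 3 : ℤ) : ℚ)}.Finite := by
  haveI := finite_pt hD hF hC h1
  have hD0 : (D : ℚ) ≠ 0 := by exact_mod_cast hD.ne_zero
  have q12 : (0 : ℚ) ≠ 16 * D := (mul_ne_zero (by norm_num) hD0).symm
  have q13 : (0 : ℚ) ≠ 25 * D := (mul_ne_zero (by norm_num) hD0).symm
  have q23 : (16 : ℚ) * D ≠ 25 * D := by
    intro h
    apply hD0
    linarith
  rw [← Set.finite_coe_iff]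
  have key : ∀ q : {q : ℚ × ℚ | q.2 ^ 2 = q.1 ^ 3 + ((-12987 * (D : ℤ) ^ 2 : ℤ) : ℚ) * q.1 +
      ((-263466 * (D : ℤ) ^ 3 : ℤ) : ℚ)},
      (crv (0 : ℚ) (16 * D) (25 * D)).toAffine.Nonsingular
        ((q.1.1 - 123 * D) / 9) (q.1.2 / 27) := by
    rintro ⟨q, hq⟩
    refine crv_nonsing q12 q13 q23 ?_
    have h1 : q.2 ^ 2 = q.1 ^ 3 + ((-12987 * (D : ℤ) ^ 2 : ℤ) : ℚ) * q.1 +
      ((-263466 * (D : ℤ) ^ 3 : ℤ) : ℚ) := hq
    show (q.2 / 27) ^ 2 = _
    rw [div_pow, h1]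
    push_cast
    ring
  refine Finite.of_injective (fun q : {q : ℚ × ℚ | q.2 ^ 2 = q.1 ^ 3 +
      ((-12987 * (D : ℤ) ^ 2 : ℤ) : ℚ) * q.1 + ((-263466 * (D : ℤ) ^ 3 : ℤ) : ℚ)} =>
    (Affine.Point.some _ _ (key q) : Pt (0 : ℚ) (16 * D) (25 * D))) ?_
  intro q q' h
  have h1 := Affine.Point.some.inj h
  have h2 : q.1.1 = q'.1.1 := by linarith [h1.1]
  have h3 : q.1.2 = q'.1.2 := by linarith [h1.2]
  exact Subtype.ext (Prod.ext h2 h3)

end Pool.Agent.H468.X15
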