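import Pool.Agent.H468.X15.Sml

/-!
# The classes of the rational points on the twists of `X_0(15)`
-/

set_option autoImplicit false
set_option linter.all false

open scoped Classical

namespace Pool.Agent.H468.X15

open Finset
open Pool.Agent.Y703.CQ (nr)
open Pool.Agent.H757_X15.DD (aa bb Fm Gd Sol Crit sI sI_add sI_eq sI_sum jac_nr jac_prod jac_five
  jac_neg t_CRIT)

theorem sI_mul_ind (P : Prop) [Decidable P] (c : ZMod 2) :
    (if P then sI c else 1) = sI ((if P then 1 else 0) * c) := by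
  by_cases h : P
  · rw [if_pos h, if_pos h, one_mul]
  · rw [if_neg h, if_neg h, zero_mul]; simp [sI]

theorem sum_pf {b : ℕ} (hb : b ≠ 0) {S : Finset ℕ} (hsub : b.primeFactors ⊆ S)
    (hS : ∀ q ∈ S, q.Prime) (f : ℕ → ZMod 2) :
    ∑ q ∈ b.primeFactors, f q = ∑ q ∈ S, f q * (if q ∣ b then 1 else 0) := by
  have h1 : b.primeFactors = S.filter fun q => q ∣ b := by
    ext q
    rw [mem_filter, Nat.mem_primeFactors]
    constructor
    · intro h
      exact ⟨hsub (Nat.mem_primeFactors.2 h), h.2.1⟩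
    · intro h
      exact ⟨hS q h.1, h.2, hb⟩
  rw [h1, sum_filter]
  refine sum_congr rfl fun q _ => ?_
  split_ifs <;> simp

theorem eq_one_of {b : ℕ} (hb : Squarefree b) {S : Finset ℕ} (hsub : b.primeFactors ⊆ S)
    (h : ∀ q ∈ S, ¬ q ∣ b) : b = 1 := by
  have h1 : b.primeFactors = ∅ := by
    rw [Finset.eq_empty_iff_forall_notMem]
    intro q hq
    exact h q (hsub hq) (Nat.dvd_of_mem_primeFactors hq)
  rw [← Nat.prod_primeFactors_of_squarefree hb, h1, prod_empty]

theorem eq_D_of {b D : ℕ} (hb : Squarefree b) (hD : Squarefree D)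
    (hsub : b.primeFactors ⊆ D.primeFactors) (h : ∀ q ∈ D.primeFactors, q ∣ b) : b = D := by
  have h1 : b.primeFactors = D.primeFactors := by
    refine Finset.Subset.antisymm hsub fun q hq => ?_
    exact Nat.mem_primeFactors.2 ⟨Nat.prime_of_mem_primeFactors hq, h q hq, hb.ne_zero⟩
  rw [← Nat.prod_primeFactors_of_squarefree hb, h1, Nat.prod_primeFactors_of_squarefree hD]

theorem z2c (c : ZMod 2) : c = 0 ∨ c = 1 := by revert c; decide

/-- The four classes of the rational points. -/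
theorem classes {D : ℕ} (hD : Squarefree D) (hF : Fm D) (hC : Crit D) (h1 : D ≠ 1) {r t s : ℤ}
    (hrt : IsCoprime r t) (hs : s ≠ 0)
    (h : r * (r + 16 * D * t ^ 2) * (r + 25 * D * t ^ 2) = s ^ 2) :
    (IsSquare r ∨ IsSquare (-D * r)) ∧
    ((IsSquare r ∧ IsSquare (r + 16 * D * t ^ 2)) ∨
      (IsSquare r ∧ IsSquare (D * (r + 16 * D * t ^ 2))) ∨
      (IsSquare (-D * r) ∧ IsSquare (-(r + 16 * D * t ^ 2))) ∨
      (IsSquare (-D * r) ∧ IsSquare (-D * (r + 16 * D * t ^ 2)))) := by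
  have hnz : r * (r + 16 * D * t ^ 2) * (r + 25 * D * t ^ 2) ≠ 0 := by
    rw [h]; exact pow_ne_zero 2 hs
  have nC := right_ne_zero_of_mul hnz
  have nB := right_ne_zero_of_mul (left_ne_zero_of_mul hnz)
  have nA := left_ne_zero_of_mul (left_ne_zero_of_mul hnz)
  set S := D.primeFactors with hSdef
  have hD0 : D ≠ 0 := hD.ne_zero
  have hpr : ∀ q ∈ S, q.Prime := fun q hq => Nat.prime_of_mem_primeFactors hq
  have hdv : ∀ q ∈ S, q ∣ D := fun q hq => Nat.dvd_of_mem_primeFactors hq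
  have h7 : ∀ q ∈ S, 7 ≤ q := by
    intro q hq
    by_contra hlt
    push Not at hlt
    have h2 := (hpr q hq).two_le
    have h3 := hdv q hq
    have hqp := hpr q hq
    interval_cases q
    · rcases hF with h | h <;> omega
    · rcases hF with h | h <;> omega
    · exact absurd hqp (by norm_num)
    · rcases hF with h | h <;> omega
    · exact absurd hqp (by norm_num)
  have hD4 : (D : ℤ) % 4 = 1 := by rcases hF with h | h <;> omega
  have hD3 : (D : ℤ) % 3 = 1 := by rcases hF with h | h <;> omega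
  have hD5 : (D : ℤ) % 5 = 1 ∨ (D : ℤ) % 5 = 4 := by
    rcases hF with h | h
    · left; omega
    · right; omega
  have h5S : (5 : ℕ) ∉ S := fun h5 => by
    have := h7 5 h5
    omega
  have hSne : S.Nonempty := by
    rw [hSdef, Nat.nonempty_primeFactors]
    omega
  -- the local conditions at the small primes
  obtain ⟨v2A, v2B, p2AB⟩ := two hD4 hrt nA nB nC h
  have v3B := three hD3 hrt nA nB nC h
  obtain ⟨v5B, ps5B⟩ := five hD5 hrt nA nB nC h
  -- signs
  have hDt : 0 ≤ (D : ℤ) * t ^ 2 := by positivity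
  have hprod : 0 < r * (r + 16 * D * t ^ 2) * (r + 25 * D * t ^ 2) := by
    rw [h]; positivity
  have hsign : (r + 16 * D * t ^ 2 < 0) ↔ r < 0 := by
    constructor
    · intro hb
      nlinarith
    · intro hr
      by_contra hb
      push Not at hb
      have hb' : 0 < r + 16 * D * t ^ 2 := lt_of_le_of_ne hb (Ne.symm nB)
      have hc' : 0 < r + 25 * D * t ^ 2 := by nlinarith
      have : r * (r + 16 * D * t ^ 2) * (r + 25 * D * t ^ 2) < 0 :=
        mul_neg_of_neg_of_pos (mul_neg_of_neg_of_pos hr hb') hc'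
      omega
  -- the square parts
  obtain ⟨b1, m1, hb1, hm1, e1, w1⟩ := sqf_dec r nA
  obtain ⟨b2, m2, hb2, hm2, e2, w2⟩ := sqf_dec _ nB
  have hδ2 : (if r + 16 * D * t ^ 2 < 0 then (-1 : ℤ) else 1) = if r < 0 then (-1 : ℤ) else 1 := by
    by_cases hr : r < 0
    · rw [if_pos hr, if_pos (hsign.2 hr)]
    · rw [if_neg hr, if_neg (fun h => hr (hsign.1 h))]
  rw [hδ2] at e2
  obtain ⟨δ, hδ⟩ : ∃ δ : ℤ, δ = if r < 0 then -1 else 1 := ⟨_, rfl⟩
  obtain ⟨σ, hσ⟩ : ∃ σ : ZMod 2, σ = if r < 0 then 1 else 0 := ⟨_, rfl⟩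
  rw [← hδ] at e1 e2
  have hδpm : δ = 1 ∨ δ = -1 := by
    rw [hδ]; split_ifs <;> simp
  have hδ0 : δ ≠ 0 := by rcases hδpm with h | h <;> rw [h] <;> norm_num
  have hδs : ∀ p : ℕ, p.Prime → p ≠ 2 → ps p δ = sI (σ * aa p) := by
    intro p hp hp2
    haveI : Fact p.Prime := ⟨hp⟩
    have hp1 : ¬ (p : ℤ) ∣ 1 := fun h' => hp.one_lt.ne' (Nat.dvd_one.1 (by exact_mod_cast h'))
    rw [hδ, hσ]
    by_cases hr : r < 0
    · rw [if_pos hr, if_pos hr, one_mul, ps_unit (by rw [dvd_neg]; exact hp1), jac_neg hp hp2]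
    · rw [if_neg hr, if_neg hr, zero_mul, ps_unit hp1, jacobiSym.one_left]
      simp [sI]
  have hb10 : (b1 : ℤ) ≠ 0 := by exact_mod_cast hb1.ne_zero
  have hb20 : (b2 : ℤ) ≠ 0 := by exact_mod_cast hb2.ne_zero
  have hpsb : ∀ (p : ℕ) (hp : p.Prime) (hp2 : p ≠ 2) (b : ℕ) (m : ℤ), Squarefree b → m ≠ 0 →
      ps p (δ * b * m ^ 2) = sI (σ * aa p + ∑ q ∈ b.primeFactors, nr p q) := by
    intro p hp hp2 b m hb hm
    haveI : Fact p.Prime := ⟨hp⟩
    have hb0 : (b : ℤ) ≠ 0 := by exact_mod_cast hb.ne_zero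
    rw [ps_mul (mul_ne_zero hδ0 hb0) (pow_ne_zero 2 hm), ps_mul hδ0 hb0, ps_sq hm, mul_one,
      hδs p hp hp2, ps_sqf hp hb, sI_add]
  -- the primes dividing the squarefree parts
  have hmemS : ∀ q : ℕ, q.Prime → q ∣ D → q ∈ S := fun q hq hqD =>
    Nat.mem_primeFactors.2 ⟨hq, hqD, hD0⟩
  have sub1 : b1.primeFactors ⊆ insert 5 S := by
    intro q hq
    have hqp := Nat.prime_of_mem_primeFactors hq
    have hqd := Nat.dvd_of_mem_primeFactors hq
    have hodd := (w1 q hqp).1 hqd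
    rw [mem_insert]
    by_contra hcon
    push Not at hcon
    obtain ⟨hq5, hqS⟩ := hcon
    by_cases hq2 : q = 2
    · subst hq2; exact v2A hodd
    · refine other_A hqp hq2 hq5 (fun h' => hqS (hmemS q hqp (by exact_mod_cast h'))) hrt nA nB nC h hodd
  have sub2 : b2.primeFactors ⊆ S := by
    intro q hq
    have hqp := Nat.prime_of_mem_primeFactors hq
    have hqd := Nat.dvd_of_mem_primeFactors hq
    have hodd := (w2 q hqp).1 hqd
    by_contra hqS
    by_cases hq2 : q = 2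
    · subst hq2; exact v2B hodd
    · by_cases hq3 : q = 3
      · subst hq3; exact v3B hodd
      · exact other_B hqp hq2 hq3 (fun h' => hqS (hmemS q hqp (by exact_mod_cast h'))) hrt nA nB nC h hodd
  have hS5 : ∀ q ∈ insert 5 S, q.Prime := by
    intro q hq
    rcases mem_insert.1 hq with rfl | hq
    · norm_num
    · exact hpr q hq
  set α : ℕ → ZMod 2 := fun q => if q ∣ b1 then 1 else 0 with hα
  set β : ℕ → ZMod 2 := fun q => if q ∣ b2 then 1 else 0 with hβ
  have sum1 : ∀ f : ℕ → ZMod 2, ∑ q ∈ b1.primeFactors, f q = f 5 * α 5 + ∑ q ∈ S, f q * α q := by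
    intro f
    rw [sum_pf hb1.ne_zero sub1 hS5 f, sum_insert h5S]
  have sum2 : ∀ f : ℕ → ZMod 2, ∑ q ∈ b2.primeFactors, f q = ∑ q ∈ S, f q * β q := by
    intro f
    rw [sum_pf hb2.ne_zero sub2 hpr f]
  have hne2 : ∀ q ∈ S, q ≠ 2 := fun q hq => by have := h7 q hq; omega
  have hne5 : ∀ q ∈ S, q ≠ 5 := fun q hq => by have := h7 q hq; omega
  -- the equations at the primes dividing `D`
  have hloc : ∀ p ∈ S, (σ * aa p + (bb p * α 5 + ∑ q ∈ S, nr p q * α q) =
        α p * (aa p + ∑ q ∈ S, nr p q)) ∧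
      (σ * aa p + ∑ q ∈ S, nr p q * β q = β p * ∑ q ∈ S, nr p q + α p * aa p) := by
    intro p hp
    have hpp := hpr p hp
    haveI : Fact p.Prime := ⟨hpp⟩
    obtain ⟨D', hD'⟩ := hdv p hp
    have hD'n : ¬ p ∣ D' := by
      rintro ⟨k, hk⟩
      have h2 : p * p ∣ D := ⟨k, by rw [hD', hk]; ring⟩
      have := hD p h2
      exact hpp.one_lt.ne' (Nat.isUnit_iff.1 this)
    have hD'z : ¬ (p : ℤ) ∣ (D' : ℤ) := by exact_mod_cast hD'n
    have hDz : (D : ℤ) = p * D' := by rw [hD']; push_cast; rfl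
    have hJ : jacobiSym (D' : ℤ) p = sI (∑ q ∈ S, nr p q) := by
      rw [← ps_p hD'z, ← hDz]
      exact ps_sqf hpp hD
    have hJ' : jacobiSym (-(D' : ℤ)) p = sI (aa p + ∑ q ∈ S, nr p q) := by
      rw [neg_eq_neg_one_mul, jacobiSym.mul_left, hJ, jac_neg hpp (hne2 p hp), sI_add]
    rw [hDz] at h nB nC
    obtain ⟨l1, l2⟩ := loc (h7 p hp) hD'z hrt nA nB nC h
    rw [← hDz] at l2
    have q1 : ps p r = sI (σ * aa p + ∑ q ∈ b1.primeFactors, nr p q) := by
      conv_lhs => rw [e1]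
      exact hpsb p hpp (hne2 p hp) b1 m1 hb1 hm1
    have q2 : ps p (r + 16 * D * t ^ 2) = sI (σ * aa p + ∑ q ∈ b2.primeFactors, nr p q) := by
      conv_lhs => rw [e2]
      exact hpsb p hpp (hne2 p hp) b2 m2 hb2 hm2
    have i1 : (if Odd (padicValInt p r) then (1 : ZMod 2) else 0) = α p := by
      rw [hα]
      simp only [w1 p hpp]
    have i2 : (if Odd (padicValInt p (r + 16 * D * t ^ 2)) then (1 : ZMod 2) else 0) = β p := by
      rw [hβ]
      simp only [w2 p hpp]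
    rw [q1, hJ', sI_mul_ind, i1, sum1] at l1
    rw [q2, hJ, jac_neg hpp (hne2 p hp), sI_mul_ind, sI_mul_ind, i1, i2, sum2, ← sI_add] at l2
    rw [nr_five hpp (hne2 p hp) (hne5 p hp)] at l1
    exact ⟨sI_inj l1, sI_inj l2⟩
  -- the sums
  have ha : ∑ q ∈ S, aa q = 0 := by
    rw [← sI_eq, ← p2_sqf hD (by omega), p2_unit (by omega)]
    exact ZMod.χ₄_int_one_mod_four hD4
  have hnr5 : ∀ q ∈ S, nr 5 q = bb q := by
    intro q hq
    apply sI_inj
    rw [← jac_nr (by norm_num) (hpr q hq) (Ne.symm (hne5 q hq))]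
    refine jac_five ?_
    intro h0
    exact hne5 q hq ((Nat.prime_dvd_prime_iff_eq (by norm_num) (hpr q hq)).1
      (Nat.dvd_of_mod_eq_zero h0)).symm
  have hb : ∑ q ∈ S, bb q = 0 := by
    have h5p : Nat.Prime 5 := by norm_num
    haveI : Fact (Nat.Prime 5) := ⟨h5p⟩
    have h5D : ¬ ((5 : ℕ) : ℤ) ∣ (D : ℤ) := by push_cast; omega
    rw [← sI_eq, ← sum_congr rfl hnr5, ← ps_sqf h5p hD, ps_unit h5D, jacobiSym.mod_left]
    have h5 : (D : ℤ) % ((5 : ℕ) : ℤ) = 1 ∨ (D : ℤ) % ((5 : ℕ) : ℤ) = 4 := by exact_mod_cast hD5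
    rcases h5 with h5 | h5
    · rw [h5]; norm_num
    · rw [h5]; norm_num
  have hN : ∀ p ∈ S, ∀ q ∈ S, p ≠ q → nr p q = nr q p + aa p * aa q := fun p hp q hq hpq =>
    nr_rec (hpr p hp) (hpr q hq) (hne2 p hp) (hne2 q hq) hpq
  have hGd : Gd S := (t_CRIT D hD hF).1 hC
  have hG : ∀ x : ℕ → ZMod 2, (∀ p ∈ S, Mx S nr aa x p = 0) → ∑ p ∈ S, bb p * x p = 0 →
      ∀ p ∈ S, x p = 0 := fun x hx1 hx2 => hGd x ⟨hx1, hx2⟩
  have E1 : ∀ p ∈ S, Mx S nr aa (fun q => α q + σ) p = α 5 * bb p := by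
    intro p hp
    have k := (hloc p hp).1
    unfold Mx
    have j : ∑ q ∈ S, nr p q * (α q + σ + (α p + σ)) =
        ∑ q ∈ S, nr p q * α q + α p * ∑ q ∈ S, nr p q := by
      rw [Finset.mul_sum, ← sum_add_distrib]
      refine sum_congr rfl fun q _ => ?_
      linear_combination (nr p q) * (z2 σ)
    rw [j]
    linear_combination k + (-(bb p * α 5)) * (z2 1) + (α p * ∑ q ∈ S, nr p q + aa p * α p) * (z2 1)
  have E2 : ∀ p ∈ S, My S nr (fun q => β q + σ) p = aa p * (α p + σ) := by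
    intro p hp
    have k := (hloc p hp).2
    unfold My
    have j : ∑ q ∈ S, nr p q * (β q + σ + (β p + σ)) =
        ∑ q ∈ S, nr p q * β q + β p * ∑ q ∈ S, nr p q := by
      rw [Finset.mul_sum, ← sum_add_distrib]
      refine sum_congr rfl fun q _ => ?_
      linear_combination (nr p q) * (z2 σ)
    rw [j]
    linear_combination k + (β p * ∑ q ∈ S, nr p q) * (z2 1) + (-(σ * aa p)) * (z2 1)
  have E3 : ∑ p ∈ S, aa p * (α p + σ + (β p + σ)) = 0 := by
    have h2b1 : ¬ 2 ∣ b1 := fun h2 => v2A ((w1 2 Nat.prime_two).1 h2)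
    have h2b2 : ¬ 2 ∣ b2 := fun h2 => v2B ((w2 2 Nat.prime_two).1 h2)
    have k1 : p2 r = p2 δ * sI (∑ q ∈ b1.primeFactors, aa q) := by
      conv_lhs => rw [e1]
      rw [p2_mul (mul_ne_zero hδ0 hb10) (pow_ne_zero 2 hm1), p2_mul hδ0 hb10, p2_sq hm1, mul_one,
        p2_sqf hb1 h2b1]
    have k2 : p2 (r + 16 * D * t ^ 2) = p2 δ * sI (∑ q ∈ b2.primeFactors, aa q) := by
      conv_lhs => rw [e2]
      rw [p2_mul (mul_ne_zero hδ0 hb20) (pow_ne_zero 2 hm2), p2_mul hδ0 hb20, p2_sq hm2, mul_one,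
        p2_sqf hb2 h2b2]
    rw [k1, k2] at p2AB
    have hp2δ : p2 δ ≠ 0 := by
      rcases p2_pm hδ0 with h | h <;> rw [h] <;> norm_num
    have k3 := sI_inj (mul_left_cancel₀ hp2δ p2AB)
    rw [sum1, sum2] at k3
    have k4 : aa 5 = 0 := by unfold aa; rw [if_neg (by norm_num)]
    rw [k4, zero_mul, zero_add] at k3
    have k5 : ∑ p ∈ S, aa p * (α p + σ + (β p + σ)) =
        ∑ p ∈ S, aa p * α p + ∑ p ∈ S, aa p * β p := by
      rw [← sum_add_distrib]
      refine sum_congr rfl fun q _ => ?_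
      linear_combination (aa q) * (z2 σ)
    rw [k5, k3, z2]
  have E4 : ∑ p ∈ S, bb p * (β p + σ) = 0 := by
    have k1 : ps 5 (r + 16 * D * t ^ 2) = sI (σ * aa 5 + ∑ q ∈ b2.primeFactors, nr 5 q) := by
      conv_lhs => rw [e2]
      exact hpsb 5 (by norm_num) (by norm_num) b2 m2 hb2 hm2
    have k4 : aa 5 = 0 := by unfold aa; rw [if_neg (by norm_num)]
    rw [k1, k4, mul_zero, zero_add, sI_eq, sum2] at ps5B
    have k5 : ∑ q ∈ S, nr 5 q * β q = ∑ q ∈ S, bb q * β q :=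
      sum_congr rfl fun q hq => by rw [hnr5 q hq]
    rw [k5] at ps5B
    have k6 : ∑ p ∈ S, bb p * (β p + σ) = ∑ p ∈ S, bb p * β p + (∑ p ∈ S, bb p) * σ := by
      rw [Finset.sum_mul, ← sum_add_distrib]
      exact sum_congr rfl fun q _ => by ring
    rw [k6, ps5B, hb, zero_mul, add_zero]
  obtain ⟨hε, hx, hy⟩ := core S nr aa bb hN ha hb hG hSne (fun q => α q + σ) (fun q => β q + σ)
    (α 5) E1 E2 E3 E4
  -- the conclusions
  have h5b1 : ¬ 5 ∣ b1 := by
    intro h5
    have : α 5 = 1 := if_pos h5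
    rw [this] at hε
    exact one_ne_zero hε
  have sub1' : b1.primeFactors ⊆ S := by
    intro q hq
    rcases mem_insert.1 (sub1 hq) with rfl | h'
    · exact absurd (Nat.dvd_of_mem_primeFactors hq) h5b1
    · exact h'
  have hα0 : ∀ q ∈ S, α q = 0 → ¬ q ∣ b1 := fun q _ h0 hd => by
    have : α q = 1 := if_pos hd
    rw [this] at h0
    exact one_ne_zero h0
  have hα1 : ∀ q ∈ S, α q = 1 → q ∣ b1 := fun q _ h0 => by
    by_contra hd
    have : α q = 0 := if_neg hd
    rw [this] at h0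
    exact zero_ne_one h0
  have hβ0 : ∀ q ∈ S, β q = 0 → ¬ q ∣ b2 := fun q _ h0 hd => by
    have : β q = 1 := if_pos hd
    rw [this] at h0
    exact one_ne_zero h0
  have hβ1 : ∀ q ∈ S, β q = 1 → q ∣ b2 := fun q _ h0 => by
    by_contra hd
    have : β q = 0 := if_neg hd
    rw [this] at h0
    exact zero_ne_one h0
  by_cases hr : r < 0
  · -- negative
    have hσ1 : σ = 1 := by rw [hσ, if_pos hr]
    have hδ1 : δ = -1 := by rw [hδ, if_pos hr]
    have hb1D : b1 = D := eq_D_of hb1 hD sub1' fun q hq => hα1 q hq (by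
      have := hx q hq
      simp only [hσ1] at this
      linear_combination this - z2 1)
    have sqA : IsSquare (-D * r) := ⟨D * m1, by
      rw [e1, hδ1, hb1D]; ring⟩
    refine ⟨Or.inr sqA, ?_⟩
    rcases hy with hy | hy
    · have hb2D : b2 = D := eq_D_of hb2 hD sub2 fun q hq => hβ1 q hq (by
        have := hy q hq
        simp only [hσ1] at this
        linear_combination this - z2 1)
      refine Or.inr (Or.inr (Or.inr ⟨sqA, ⟨D * m2, ?_⟩⟩))
      rw [e2, hδ1, hb2D]; ring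
    · have hb21 : b2 = 1 := eq_one_of hb2 sub2 fun q hq => hβ0 q hq (by
        have := hy q hq
        simp only [hσ1] at this
        linear_combination this)
      refine Or.inr (Or.inr (Or.inl ⟨sqA, ⟨m2, ?_⟩⟩))
      rw [e2, hδ1, hb21]; push_cast; ring
  · have hσ0 : σ = 0 := by rw [hσ, if_neg hr]
    have hδ1 : δ = 1 := by rw [hδ, if_neg hr]
    have hb11 : b1 = 1 := eq_one_of hb1 sub1' fun q hq => hα0 q hq (by
      have := hx q hq
      simp only [hσ0] at this
      linear_combination this)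
    have sqA : IsSquare r := ⟨m1, by
      rw [e1, hδ1, hb11]; push_cast; ring⟩
    refine ⟨Or.inl sqA, ?_⟩
    rcases hy with hy | hy
    · have hb21 : b2 = 1 := eq_one_of hb2 sub2 fun q hq => hβ0 q hq (by
        have := hy q hq
        simp only [hσ0] at this
        linear_combination this)
      refine Or.inl ⟨sqA, ⟨m2, ?_⟩⟩
      rw [e2, hδ1, hb21]; push_cast; ring
    · have hb2D : b2 = D := eq_D_of hb2 hD sub2 fun q hq => hβ1 q hq (by
        have := hy q hq
        simp only [hσ0] at this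
        linear_combination this)
      refine Or.inr (Or.inl ⟨sqA, ⟨D * m2, ?_⟩⟩)
      rw [e2, hδ1, hb2D]; ring

end Pool.Agent.H468.X15
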