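import Mathlib

/-!
# Linear algebra over the field with two elements for the descent on the twists of `X_0(15)`
-/

set_option autoImplicit false

namespace Pool.Agent.H468.X15

open Finset

section lin

variable (S : Finset ℕ) (N : ℕ → ℕ → ZMod 2) (a b : ℕ → ZMod 2)

/-- the matrix of the first coordinate -/
def Mx (x : ℕ → ZMod 2) (p : ℕ) : ZMod 2 := ∑ q ∈ S, N p q * (x q + x p) + a p * x p

/-- the matrix of the second coordinate -/
def My (y : ℕ → ZMod 2) (p : ℕ) : ZMod 2 := ∑ q ∈ S, N p q * (y q + y p)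

theorem z2 (c : ZMod 2) : c + c = 0 := by
  revert c; decide

theorem z2m (c : ZMod 2) : c * c = c := by
  revert c; decide

theorem eq_of_add {c d : ZMod 2} (h : c + d = 0) : c = d := by
  revert c d; decide

theorem pairing (hN : ∀ p ∈ S, ∀ q ∈ S, p ≠ q → N p q = N q p + a p * a q) (z w : ℕ → ZMod 2) :
    ∑ p ∈ S, z p * Mx S N a w p =
      ∑ p ∈ S, w p * My S N z p + (∑ p ∈ S, a p * z p) * (∑ p ∈ S, a p * w p) := by
  have h1 : ∑ p ∈ S, z p * Mx S N a w p =
      ∑ p ∈ S, ∑ q ∈ S, N p q * (z p * w q + z p * w p) + ∑ p ∈ S, a p * (z p * w p) := by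
    rw [← Finset.sum_add_distrib]
    refine Finset.sum_congr rfl fun p _ => ?_
    unfold Mx
    rw [mul_add, Finset.mul_sum]
    congr 1
    · exact Finset.sum_congr rfl fun q _ => by ring
    · ring
  have h2 : ∑ p ∈ S, w p * My S N z p =
      ∑ p ∈ S, ∑ q ∈ S, N p q * (w p * z q + z p * w p) := by
    refine Finset.sum_congr rfl fun p _ => ?_
    unfold My
    rw [Finset.mul_sum]
    exact Finset.sum_congr rfl fun q _ => by ring
  have h3 : (∑ p ∈ S, a p * z p) * (∑ p ∈ S, a p * w p) =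
      ∑ p ∈ S, ∑ q ∈ S, a p * a q * (z p * w q) := by
    rw [Finset.sum_mul_sum]
    exact Finset.sum_congr rfl fun p _ => Finset.sum_congr rfl fun q _ => by ring
  have h4 : ∑ p ∈ S, ∑ q ∈ S, N p q * (w p * z q) = ∑ p ∈ S, ∑ q ∈ S, N q p * (z p * w q) := by
    rw [Finset.sum_comm]
    exact Finset.sum_congr rfl fun p _ => Finset.sum_congr rfl fun q _ => by ring
  have h5 : ∑ p ∈ S, ∑ q ∈ S, ((N p q + N q p) * (z p * w q) + a p * a q * (z p * w q)) =
      ∑ p ∈ S, a p * (z p * w p) := by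
    refine Finset.sum_congr rfl fun p hp => ?_
    rw [Finset.sum_eq_single p]
    · rw [z2, zero_mul, zero_add, z2m]
    · intro q hq hqp
      rw [hN p hp q hq (Ne.symm hqp), ← add_mul]
      have : N q p + a p * a q + N q p + a p * a q = (N q p + N q p) + (a p * a q + a p * a q) := by
        ring
      rw [this, z2, z2, add_zero, zero_mul]
    · intro h; exact absurd hp h
  rw [h1, h2, h3]
  refine eq_of_add ?_
  have h6 : ∑ p ∈ S, ∑ q ∈ S, N p q * (z p * w q + z p * w p) =
      ∑ p ∈ S, ∑ q ∈ S, N p q * (z p * w q) + ∑ p ∈ S, ∑ q ∈ S, N p q * (z p * w p) := by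
    rw [← Finset.sum_add_distrib]
    refine Finset.sum_congr rfl fun p _ => ?_
    rw [← Finset.sum_add_distrib]
    exact Finset.sum_congr rfl fun q _ => by ring
  have h7 : ∑ p ∈ S, ∑ q ∈ S, N p q * (w p * z q + z p * w p) =
      ∑ p ∈ S, ∑ q ∈ S, N p q * (w p * z q) + ∑ p ∈ S, ∑ q ∈ S, N p q * (z p * w p) := by
    rw [← Finset.sum_add_distrib]
    refine Finset.sum_congr rfl fun p _ => ?_
    rw [← Finset.sum_add_distrib]
    exact Finset.sum_congr rfl fun q _ => by ring
  have h8 : ∑ p ∈ S, ∑ q ∈ S, ((N p q + N q p) * (z p * w q) + a p * a q * (z p * w q)) =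
      ∑ p ∈ S, ∑ q ∈ S, N p q * (z p * w q) + ∑ p ∈ S, ∑ q ∈ S, N q p * (z p * w q) +
        ∑ p ∈ S, ∑ q ∈ S, a p * a q * (z p * w q) := by
    rw [← Finset.sum_add_distrib, ← Finset.sum_add_distrib]
    refine Finset.sum_congr rfl fun p _ => ?_
    rw [← Finset.sum_add_distrib, ← Finset.sum_add_distrib]
    exact Finset.sum_congr rfl fun q _ => by ring
  rw [h6, h7, h4]
  have h9 := h5
  rw [h8] at h9
  generalize ∑ p ∈ S, ∑ q ∈ S, N p q * (z p * w q) = A at *
  generalize ∑ p ∈ S, ∑ q ∈ S, N q p * (z p * w q) = B at *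
  generalize ∑ p ∈ S, ∑ q ∈ S, N p q * (z p * w p) = C at *
  generalize ∑ p ∈ S, ∑ q ∈ S, a p * a q * (z p * w q) = E at *
  rw [← h9]
  have : A + C + (A + B + E) + (B + C + E) = (A + A) + (B + B) + (C + C) + (E + E) := by ring
  rw [this, z2 A, z2 B, z2 C, z2 E]
  simp

/-- extension by zero -/
noncomputable def ex {S : Finset ℕ} (v : S → ZMod 2) (q : ℕ) : ZMod 2 :=
  if h : q ∈ S then v ⟨q, h⟩ else 0

theorem ex_mem {S : Finset ℕ} (v : S → ZMod 2) {q : ℕ} (h : q ∈ S) : ex v q = v ⟨q, h⟩ := dif_pos h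

theorem ex_add {S : Finset ℕ} (v w : S → ZMod 2) (q : ℕ) : ex (v + w) q = ex v q + ex w q := by
  unfold ex; split_ifs <;> simp

theorem ex_smul {S : Finset ℕ} (c : ZMod 2) (v : S → ZMod 2) (q : ℕ) : ex (c • v) q = c * ex v q := by
  unfold ex; split_ifs <;> simp

/-- the matrix as a linear map -/
noncomputable def ML : (S → ZMod 2) →ₗ[ZMod 2] (S → ZMod 2) where
  toFun v := fun p => Mx S N a (ex v) p
  map_add' v w := by
    funext p
    show Mx S N a (ex (v + w)) p = Mx S N a (ex v) p + Mx S N a (ex w) p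
    unfold Mx
    simp only [ex_add]
    have : ∑ q ∈ S, N p q * (ex v q + ex w q + (ex v p + ex w p)) =
        ∑ q ∈ S, N p q * (ex v q + ex v p) + ∑ q ∈ S, N p q * (ex w q + ex w p) := by
      rw [← Finset.sum_add_distrib]
      exact Finset.sum_congr rfl fun q _ => by ring
    rw [this]; ring
  map_smul' c v := by
    funext p
    show Mx S N a (ex (c • v)) p = c * Mx S N a (ex v) p
    unfold Mx
    simp only [ex_smul]
    rw [mul_add, Finset.mul_sum]
    congr 1
    · exact Finset.sum_congr rfl fun q _ => by ring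
    · ring

theorem ML_apply (v : S → ZMod 2) (p : S) : ML S N a v p = Mx S N a (ex v) p := rfl

theorem sum_attach_mul (u : ℕ → ZMod 2) (f : ℕ → ZMod 2) :
    ∑ p : S, u p * f p = ∑ p ∈ S, u p * f p :=
  Finset.sum_coe_sort S fun p => u p * f p

/-- the values of the matrix are orthogonal to the left kernel -/
theorem left_ortho (hN : ∀ p ∈ S, ∀ q ∈ S, p ≠ q → N p q = N q p + a p * a q) (u : ℕ → ZMod 2)
    (h1 : ∀ p ∈ S, My S N u p = 0) (h2 : ∑ p ∈ S, a p * u p = 0) (v : S → ZMod 2) :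
    ∑ p : S, u p * ML S N a v p = 0 := by
  have h3 := pairing S N a hN u (ex v)
  rw [h2, zero_mul, add_zero] at h3
  have h4 : ∑ p ∈ S, ex v p * My S N u p = 0 :=
    Finset.sum_eq_zero fun p hp => by rw [h1 p hp, mul_zero]
  rw [h4] at h3
  rw [← h3]
  simp only [ML_apply]
  exact sum_attach_mul S u fun p => Mx S N a (ex v) p

theorem My_one (p : ℕ) : My S N (fun _ => 1) p = 0 := by
  unfold My
  refine Finset.sum_eq_zero fun q _ => ?_
  rw [z2, mul_zero]

/-- K1 -/
theorem exists_ker (hN : ∀ p ∈ S, ∀ q ∈ S, p ≠ q → N p q = N q p + a p * a q)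
    (ha : ∑ p ∈ S, a p = 0) (hS : S.Nonempty) :
    ∃ z : ℕ → ZMod 2, (∀ p ∈ S, Mx S N a z p = 0) ∧ ∃ p ∈ S, z p ≠ 0 := by
  have hns : ¬ Function.Surjective (ML S N a) := by
    intro hs
    obtain ⟨p0, hp0⟩ := hS
    obtain ⟨v, hv⟩ := hs (Pi.single ⟨p0, hp0⟩ 1)
    have h1 := left_ortho S N a hN (fun _ => 1) (fun p _ => My_one S N p) (by simpa using ha) v
    rw [hv] at h1
    simp only [one_mul] at h1
    rw [Finset.sum_pi_single'] at h1
    simp at h1
  have hni : ¬ Function.Injective (ML S N a) := fun h =>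
    hns ((LinearMap.injective_iff_surjective).1 h)
  rw [← LinearMap.ker_eq_bot, Submodule.eq_bot_iff] at hni
  push Not at hni
  obtain ⟨v, hv, hv0⟩ := hni
  refine ⟨ex v, fun p hp => ?_, ?_⟩
  · exact congrFun (LinearMap.mem_ker.1 hv) ⟨p, hp⟩
  · by_contra h
    push Not at h
    apply hv0
    funext p
    have := h p p.2
    rwa [ex_mem v p.2] at this

/-- K2 -/
theorem left_ker (hN : ∀ p ∈ S, ∀ q ∈ S, p ≠ q → N p q = N q p + a p * a q)
    (ha : ∑ p ∈ S, a p = 0)
    (hG : ∀ x : ℕ → ZMod 2, (∀ p ∈ S, Mx S N a x p = 0) → ∑ p ∈ S, b p * x p = 0 → ∀ p ∈ S, x p = 0)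
    (u : ℕ → ZMod 2) (h1 : ∀ p ∈ S, My S N u p = 0) (h2 : ∑ p ∈ S, a p * u p = 0) :
    (∀ p ∈ S, u p = 0) ∨ ∀ p ∈ S, u p = 1 := by
  by_contra hcon
  rw [not_or] at hcon
  obtain ⟨hc1, hc2⟩ := hcon
  push Not at hc1 hc2
  obtain ⟨p1, hp1, hu1⟩ := hc1
  obtain ⟨p0, hp0, hu0⟩ := hc2
  have e1 : u p1 = 1 := by
    revert hu1; generalize u p1 = c; revert c; decide
  have e0 : u p0 = 0 := by
    revert hu0; generalize u p0 = c; revert c; decide
  have hne : p1 ≠ p0 := by
    rintro rfl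
    rw [e1] at e0
    exact one_ne_zero e0
  -- the functional `b`
  let B : (S → ZMod 2) →ₗ[ZMod 2] ZMod 2 :=
    { toFun := fun v => ∑ p ∈ S, b p * ex v p
      map_add' := fun v w => by
        rw [← Finset.sum_add_distrib]
        exact Finset.sum_congr rfl fun p _ => by rw [ex_add]; ring
      map_smul' := fun c v => by
        show ∑ p ∈ S, b p * ex (c • v) p = c * _
        rw [Finset.mul_sum]
        exact Finset.sum_congr rfl fun p _ => by rw [ex_smul]; ring }
  let Φ : (S → ZMod 2) →ₗ[ZMod 2] (S → ZMod 2) × ZMod 2 := (ML S N a).prod B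
  have hΦ : Function.Injective Φ := by
    rw [← LinearMap.ker_eq_bot, Submodule.eq_bot_iff]
    intro v hv
    have hv' : (ML S N a v, B v) = (0, 0) := LinearMap.mem_ker.1 hv
    rw [Prod.mk.injEq] at hv'
    have h3 := hG (ex v) (fun p hp => congrFun hv'.1 ⟨p, hp⟩) hv'.2
    funext p
    have := h3 p p.2
    rwa [ex_mem v p.2] at this
  let Ψ : (S → ZMod 2) × ZMod 2 →ₗ[ZMod 2] ZMod 2 × ZMod 2 :=
    { toFun := fun w => (∑ p : S, w.1 p, ∑ p : S, u p * w.1 p)
      map_add' := fun w w' => by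
        refine Prod.ext ?_ ?_
        · show ∑ p : S, (w.1 p + w'.1 p) = _
          rw [Finset.sum_add_distrib]; rfl
        · show ∑ p : S, u p * (w.1 p + w'.1 p) = _
          simp only [mul_add]
          rw [Finset.sum_add_distrib]; rfl
      map_smul' := fun c w => by
        refine Prod.ext ?_ ?_
        · show ∑ p : S, c * w.1 p = c * ∑ p : S, w.1 p
          rw [Finset.mul_sum]
        · show ∑ p : S, u p * (c * w.1 p) = c * ∑ p : S, u p * w.1 p
          rw [Finset.mul_sum]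
          exact Finset.sum_congr rfl fun p _ => by ring }
  have hΨ : Function.Surjective Ψ := by
    rintro ⟨c, d⟩
    refine ⟨(Pi.single ⟨p0, hp0⟩ (c + d) + Pi.single ⟨p1, hp1⟩ d, 0), ?_⟩
    refine Prod.ext ?_ ?_
    · show ∑ p : S, ((Pi.single ⟨p0, hp0⟩ (c + d) : S → ZMod 2) p +
        (Pi.single ⟨p1, hp1⟩ d : S → ZMod 2) p) = c
      rw [Finset.sum_add_distrib, Finset.sum_pi_single', Finset.sum_pi_single']
      simp only [Finset.mem_univ, if_true]
      rw [add_assoc, z2, add_zero]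
    · show ∑ p : S, u p * ((Pi.single ⟨p0, hp0⟩ (c + d) : S → ZMod 2) p +
        (Pi.single ⟨p1, hp1⟩ d : S → ZMod 2) p) = d
      simp only [mul_add]
      rw [Finset.sum_add_distrib]
      have k0 : ∑ p : S, u p * (Pi.single ⟨p0, hp0⟩ (c + d) : S → ZMod 2) p = 0 := by
        refine Finset.sum_eq_zero fun p _ => ?_
        by_cases h : p = ⟨p0, hp0⟩
        · subst h
          show u p0 * _ = 0
          rw [e0, zero_mul]
        · rw [Pi.single_eq_of_ne h, mul_zero]
      have k1 : ∑ p : S, u p * (Pi.single ⟨p1, hp1⟩ d : S → ZMod 2) p = d := by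
        rw [Finset.sum_eq_single ⟨p1, hp1⟩]
        · rw [Pi.single_eq_same]
          show u p1 * d = d
          rw [e1, one_mul]
        · intro p _ h
          rw [Pi.single_eq_of_ne h, mul_zero]
        · intro h; exact absurd (Finset.mem_univ _) h
      rw [k0, k1, zero_add]
  have hle : LinearMap.range Φ ≤ LinearMap.ker Ψ := by
    rintro _ ⟨v, rfl⟩
    rw [LinearMap.mem_ker]
    refine Prod.ext ?_ ?_
    · show ∑ p : S, ML S N a v p = 0
      have := left_ortho S N a hN (fun _ => 1) (fun p _ => My_one S N p) (by simpa using ha) v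
      simpa using this
    · show ∑ p : S, u p * ML S N a v p = 0
      exact left_ortho S N a hN u h1 h2 v
  have f1 : Module.finrank (ZMod 2) (LinearMap.range Φ) = S.card := by
    rw [LinearMap.finrank_range_of_inj hΦ]
    simp
  have f2 := LinearMap.finrank_range_add_finrank_ker Ψ
  have f3 : Module.finrank (ZMod 2) (LinearMap.range Ψ) = 2 := by
    rw [LinearMap.range_eq_top.2 hΨ, finrank_top]
    simp
  have f4 : Module.finrank (ZMod 2) ((S → ZMod 2) × ZMod 2) = S.card + 1 := by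
    simp
  have f5 := Submodule.finrank_mono hle
  omega

/-- the Selmer group is generated by the points of order two -/
theorem core (hN : ∀ p ∈ S, ∀ q ∈ S, p ≠ q → N p q = N q p + a p * a q)
    (ha : ∑ p ∈ S, a p = 0) (hb : ∑ p ∈ S, b p = 0)
    (hG : ∀ x : ℕ → ZMod 2, (∀ p ∈ S, Mx S N a x p = 0) → ∑ p ∈ S, b p * x p = 0 → ∀ p ∈ S, x p = 0)
    (hS : S.Nonempty) (x y : ℕ → ZMod 2) (ε : ZMod 2)
    (E1 : ∀ p ∈ S, Mx S N a x p = ε * b p) (E2 : ∀ p ∈ S, My S N y p = a p * x p)
    (E3 : ∑ p ∈ S, a p * (x p + y p) = 0) (E4 : ∑ p ∈ S, b p * y p = 0) :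
    ε = 0 ∧ (∀ p ∈ S, x p = 0) ∧ ((∀ p ∈ S, y p = 0) ∨ ∀ p ∈ S, y p = 1) := by
  obtain ⟨z, hz, p1, hp1, hzp⟩ := exists_ker S N a hN ha hS
  have hbz : ∑ p ∈ S, b p * z p = 1 := by
    have h1 : ∑ p ∈ S, b p * z p ≠ 0 := fun h => hzp (hG z hz h p1 hp1)
    revert h1
    generalize ∑ p ∈ S, b p * z p = c
    revert c; decide
  have E3' : ∑ p ∈ S, a p * x p + ∑ p ∈ S, a p * y p = 0 := by
    rw [← E3, ← Finset.sum_add_distrib]
    exact Finset.sum_congr rfl fun p _ => by ring
  -- `ε = 0`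
  have hMyx : ∀ w : ℕ → ZMod 2, ∀ p, My S N w p = Mx S N a w p + a p * w p := by
    intro w p
    unfold Mx My
    rw [add_assoc, z2, add_zero]
  have i1 : ∑ p ∈ S, a p * (x p * z p) = (∑ p ∈ S, a p * y p) * ∑ p ∈ S, a p * z p := by
    have h1 := pairing S N a hN y z
    have h2 : ∑ p ∈ S, y p * Mx S N a z p = 0 :=
      Finset.sum_eq_zero fun p hp => by rw [hz p hp, mul_zero]
    have h3 : ∑ p ∈ S, z p * My S N y p = ∑ p ∈ S, a p * (x p * z p) :=
      Finset.sum_congr rfl fun p hp => by rw [E2 p hp]; ring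
    rw [h2, h3] at h1
    exact eq_of_add h1.symm
  have i2 : ε + ∑ p ∈ S, a p * (x p * z p) = (∑ p ∈ S, a p * x p) * ∑ p ∈ S, a p * z p := by
    have h1 := pairing S N a hN x z
    have h2 : ∑ p ∈ S, x p * Mx S N a z p = 0 :=
      Finset.sum_eq_zero fun p hp => by rw [hz p hp, mul_zero]
    have h3 : ∑ p ∈ S, z p * My S N x p = ε + ∑ p ∈ S, a p * (x p * z p) := by
      have h4 : ∑ p ∈ S, z p * My S N x p = ∑ p ∈ S, (ε * (b p * z p) + a p * (x p * z p)) :=
        Finset.sum_congr rfl fun p hp => by rw [hMyx, E1 p hp]; ring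
      rw [h4, Finset.sum_add_distrib, ← Finset.mul_sum, hbz, mul_one]
    rw [h2, h3] at h1
    exact eq_of_add h1.symm
  have hε : ε = 0 := by
    rw [i1, eq_of_add E3'] at i2
    have h5 : ε = ε + ((∑ p ∈ S, a p * y p) * ∑ p ∈ S, a p * z p +
      (∑ p ∈ S, a p * y p) * ∑ p ∈ S, a p * z p) := by rw [z2, add_zero]
    rw [h5, ← add_assoc, i2, z2]
  have hx : ∀ p ∈ S, x p = 0 := by
    by_cases hbx : ∑ p ∈ S, b p * x p = 0
    · exact hG x (fun p hp => by rw [E1 p hp, hε, zero_mul]) hbx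
    · exfalso
      have hbx1 : ∑ p ∈ S, b p * x p = 1 := by
        revert hbx
        generalize ∑ p ∈ S, b p * x p = c
        revert c; decide
      have hu := left_ker S N a b hN ha hG (fun p => x p + y p) (fun p hp => by
        have h1 : My S N (fun p => x p + y p) p = My S N x p + My S N y p := by
          unfold My
          rw [← Finset.sum_add_distrib]
          exact Finset.sum_congr rfl fun q _ => by ring
        rw [h1, hMyx x p, E1 p hp, hε, zero_mul, zero_add, E2 p hp, z2]) E3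
      have hbu : ∑ p ∈ S, b p * (x p + y p) = 1 := by
        have : ∑ p ∈ S, b p * (x p + y p) = ∑ p ∈ S, b p * x p + ∑ p ∈ S, b p * y p := by
          rw [← Finset.sum_add_distrib]
          exact Finset.sum_congr rfl fun p _ => by ring
        rw [this, hbx1, E4, add_zero]
      rcases hu with hu | hu
      · have : ∑ p ∈ S, b p * (x p + y p) = 0 :=
          Finset.sum_eq_zero fun p hp => by rw [hu p hp, mul_zero]
        rw [this] at hbu
        exact zero_ne_one hbu
      · have : ∑ p ∈ S, b p * (x p + y p) = 0 := by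
          rw [← hb]
          exact Finset.sum_congr rfl fun p hp => by rw [hu p hp, mul_one]
        rw [this] at hbu
        exact zero_ne_one hbu
  refine ⟨hε, hx, ?_⟩
  refine left_ker S N a b hN ha hG y (fun p hp => ?_) ?_
  · rw [E2 p hp, hx p hp, mul_zero]
  · have : ∑ p ∈ S, a p * x p = 0 :=
      Finset.sum_eq_zero fun p hp => by rw [hx p hp, mul_zero]
    rw [this, zero_add] at E3'
    exact E3'

end lin

end Pool.Agent.H468.X15
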