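import Pool.Agent.H468.X15.Sym

/-!
# The small primes in the descent on the twists of `X_0(15)`
-/

set_option autoImplicit false
set_option linter.all false

open scoped Classical

namespace Pool.Agent.H468.X15

open Finset
open Pool.Agent.H757_X15.DD (aa bb Fm Gd Sol Crit sI)

theorem val2_of {k : ℕ} {u : ℤ} (hu : ¬ (2 : ℤ) ∣ u) : padicValInt 2 ((2 : ℤ) ^ k * u) = k := by
  haveI : Fact (Nat.Prime 2) := ⟨Nat.prime_two⟩
  have h := val_of (p := 2) (k := k) (u := u) (by exact_mod_cast hu)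
  exact_mod_cast h

theorem val2_unit {u : ℤ} (hu : ¬ (2 : ℤ) ∣ u) : padicValInt 2 u = 0 :=
  padicValInt.eq_zero_of_not_dvd (by exact_mod_cast hu)

theorem odd4 {a : ℤ} (h : ¬ (2 : ℤ) ∣ a) : (a : ZMod 4) = 1 ∨ (a : ZMod 4) = 3 := by
  have h1 : a % 4 = 1 ∨ a % 4 = 3 := by omega
  rw [← ZMod.intCast_mod a 4]
  rcases h1 with h | h
  · left
    have : a % ((4 : ℕ) : ℤ) = 1 := by exact_mod_cast h
    rw [this]; decide
  · right
    have : a % ((4 : ℕ) : ℤ) = 3 := by exact_mod_cast h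
    rw [this]; decide

theorem vsum {p : ℕ} [Fact p.Prime] {A B C s : ℤ} (hA : A ≠ 0) (hB : B ≠ 0) (hC : C ≠ 0)
    (h : A * B * C = s ^ 2) :
    padicValInt p A + padicValInt p B + padicValInt p C = 2 * padicValInt p s := by
  have hs : s ≠ 0 := by
    rintro rfl
    rw [zero_pow two_ne_zero] at h
    exact mul_ne_zero (mul_ne_zero hA hB) hC h
  have := congrArg (padicValInt p) h
  rwa [val_mul (mul_ne_zero hA hB) hC, val_mul hA hB, val_sq hs] at this

theorem two {D r t s : ℤ} (hD : D % 4 = 1) (hrt : IsCoprime r t) (hA : r ≠ 0)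
    (hB : r + 16 * D * t ^ 2 ≠ 0) (hC : r + 25 * D * t ^ 2 ≠ 0)
    (h : r * (r + 16 * D * t ^ 2) * (r + 25 * D * t ^ 2) = s ^ 2) :
    ¬ Odd (padicValInt 2 r) ∧ ¬ Odd (padicValInt 2 (r + 16 * D * t ^ 2)) ∧
      p2 r = p2 (r + 16 * D * t ^ 2) := by
  haveI : Fact (Nat.Prime 2) := ⟨Nat.prime_two⟩
  have hD4 : (D : ZMod 4) = 1 := by
    rw [← ZMod.intCast_mod D 4]
    have : D % ((4 : ℕ) : ℤ) = 1 := by exact_mod_cast hD
    rw [this]; decide
  have hDo : ¬ (2 : ℤ) ∣ D := by omega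
  have hs : s ≠ 0 := by
    rintro rfl
    rw [zero_pow two_ne_zero] at h
    exact mul_ne_zero (mul_ne_zero hA hB) hC h
  have hvs := vsum (p := 2) hA hB hC h
  by_cases hr : (2 : ℤ) ∣ r
  · have ht : ¬ (2 : ℤ) ∣ t := fun h' => Int.prime_two.not_unit (hrt.isUnit_of_dvd' hr h')
    have ht4 := odd4 ht
    have hDt : ¬ (2 : ℤ) ∣ D * t ^ 2 := by
      rw [sq]
      exact nd2_mul hDo (nd2_mul ht ht)
    have hCo : ¬ (2 : ℤ) ∣ r + 25 * D * t ^ 2 := by
      intro h'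
      have h1 := dvd_sub h' hr
      have e : r + 25 * D * t ^ 2 - r = 25 * (D * t ^ 2) := by ring
      rw [e] at h1
      exact nd2_mul (by norm_num) hDt h1
    have hvC := val2_unit hCo
    obtain ⟨a, rfl⟩ := hr
    by_cases ha : (2 : ℤ) ∣ a
    · obtain ⟨a, rfl⟩ := ha
      have hp2 : p2 (2 * (2 * a)) = p2 (2 * (2 * a) + 16 * D * t ^ 2) := by
        have h1 := congrArg p2 h
        rw [p2_mul (mul_ne_zero hA hB) hC, p2_mul hA hB, p2_sq hs] at h1
        have h2 : p2 (2 * (2 * a) + 25 * D * t ^ 2) = 1 := by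
          rw [p2_unit hCo]
          push_cast
          rw [hD4]
          have : ∀ a t : ZMod 4, (t = 1 ∨ t = 3) →
              ZMod.χ₄ (2 * (2 * a) + 25 * 1 * t ^ 2) = 1 := by decide
          exact this _ _ ht4
        rw [h2, mul_one] at h1
        rcases p2_pm hA with h3 | h3 <;> rcases p2_pm hB with h4 | h4 <;>
          rw [h3, h4] at h1 ⊢ <;> norm_num at h1
      by_cases ha : (2 : ℤ) ∣ a
      · obtain ⟨a, rfl⟩ := ha
        by_cases ha : (2 : ℤ) ∣ a
        · obtain ⟨a, rfl⟩ := ha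
          by_cases ha : (2 : ℤ) ∣ a
          · have hu : ¬ (2 : ℤ) ∣ a + D * t ^ 2 := by
              intro h'
              have := dvd_sub h' ha
              rw [add_sub_cancel_left] at this
              exact hDt this
            have e : 2 * (2 * (2 * (2 * a))) + 16 * D * t ^ 2 = 2 ^ 4 * (a + D * t ^ 2) := by ring
            have hv := val2_of (k := 4) hu
            rw [e] at hvs hp2 ⊢
            rw [hv] at hvs ⊢
            refine ⟨?_, by decide, hp2⟩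
            rw [Nat.not_odd_iff_even]
            exact ⟨padicValInt 2 s - 2, by omega⟩
          · have e : 2 * (2 * (2 * (2 * a))) = 2 ^ 4 * a := by ring
            have hv := val2_of (k := 4) ha
            rw [e] at hvs hp2 hvC ⊢
            rw [hv] at hvs ⊢
            refine ⟨by decide, ?_, hp2⟩
            rw [Nat.not_odd_iff_even]
            exact ⟨padicValInt 2 s - 2, by omega⟩
        · exfalso
          have hs8 : (2 : ℤ) ^ 3 ∣ s := by
            rw [← Int.pow_dvd_pow_iff (two_ne_zero : (2 : ℕ) ≠ 0), ← h]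
            exact ⟨a * (a + 2 * D * t ^ 2) * (8 * a + 25 * D * t ^ 2), by ring⟩
          obtain ⟨s, rfl⟩ := hs8
          have h1 : a * (a + 2 * D * t ^ 2) * (8 * a + 25 * D * t ^ 2) = s ^ 2 := by
            have : (64 : ℤ) * (a * (a + 2 * D * t ^ 2) * (8 * a + 25 * D * t ^ 2)) = 64 * s ^ 2 := by
              linear_combination h
            exact mul_left_cancel₀ (by norm_num) this
          have h2 := congrArg (Int.cast : ℤ → ZMod 4) h1
          push_cast at h2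
          rw [hD4] at h2
          have h3 : ∀ a t s : ZMod 4, (a = 1 ∨ a = 3) → (t = 1 ∨ t = 3) →
            a * (a + 2 * 1 * t ^ 2) * (8 * a + 25 * 1 * t ^ 2) ≠ s ^ 2 := by decide
          exact h3 _ _ _ (odd4 ha) ht4 h2
      · have e1 : 2 * (2 * a) = 2 ^ 2 * a := by ring
        have hu : ¬ (2 : ℤ) ∣ a + 4 * (D * t ^ 2) := by
          intro h'
          have h2 : (2 : ℤ) ∣ 4 * (D * t ^ 2) := Dvd.dvd.mul_right (by norm_num) _
          have := dvd_sub h' h2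
          rw [add_sub_cancel_right] at this
          exact ha this
        have e2 : 2 * (2 * a) + 16 * D * t ^ 2 = 2 ^ 2 * (a + 4 * (D * t ^ 2)) := by ring
        refine ⟨?_, ?_, hp2⟩
        · rw [e1, val2_of ha]; decide
        · rw [e2, val2_of hu]; decide
    · exfalso
      have hs2 : (2 : ℤ) ^ 1 ∣ s := by
        rw [← Int.pow_dvd_pow_iff (two_ne_zero : (2 : ℕ) ≠ 0), ← h]
        exact ⟨a * (a + 8 * D * t ^ 2) * (2 * a + 25 * D * t ^ 2), by ring⟩
      obtain ⟨s, rfl⟩ := hs2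
      have h1 : a * (a + 8 * D * t ^ 2) * (2 * a + 25 * D * t ^ 2) = s ^ 2 := by
        have : (4 : ℤ) * (a * (a + 8 * D * t ^ 2) * (2 * a + 25 * D * t ^ 2)) = 4 * s ^ 2 := by
          linear_combination h
        exact mul_left_cancel₀ (by norm_num) this
      have h2 := congrArg (Int.cast : ℤ → ZMod 4) h1
      push_cast at h2
      rw [hD4] at h2
      have h3 : ∀ a t s : ZMod 4, (a = 1 ∨ a = 3) → (t = 1 ∨ t = 3) →
        a * (a + 8 * 1 * t ^ 2) * (2 * a + 25 * 1 * t ^ 2) ≠ s ^ 2 := by decide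
      exact h3 _ _ _ (odd4 ha) ht4 h2
  · have hBo : ¬ (2 : ℤ) ∣ r + 16 * D * t ^ 2 := by
      intro h'
      have h2 : (2 : ℤ) ∣ 16 * D * t ^ 2 := ⟨8 * D * t ^ 2, by ring⟩
      have := dvd_sub h' h2
      rw [add_sub_cancel_right] at this
      exact hr this
    refine ⟨?_, ?_, ?_⟩
    · rw [val2_unit hr]; decide
    · rw [val2_unit hBo]; decide
    · rw [p2_unit hr, p2_unit hBo]
      congr 1
      push_cast
      have : (16 : ZMod 4) = 0 := by decide
      rw [this]; ring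

theorem d3a : ∀ b t : ZMod 3, t ≠ 0 → 3 * b - 16 * 1 * t ^ 2 ≠ 0 := by decide

theorem d3b : ∀ b t s : ZMod 3, b ≠ 0 → t ≠ 0 →
    (3 * b - 16 * 1 * t ^ 2) * b * (b + 3 * 1 * t ^ 2) ≠ s ^ 2 := by decide

theorem three {D r t s : ℤ} (hD : D % 3 = 1) (hrt : IsCoprime r t) (hA : r ≠ 0)
    (hB : r + 16 * D * t ^ 2 ≠ 0) (hC : r + 25 * D * t ^ 2 ≠ 0)
    (h : r * (r + 16 * D * t ^ 2) * (r + 25 * D * t ^ 2) = s ^ 2) :
    ¬ Odd (padicValInt 3 (r + 16 * D * t ^ 2)) := by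
  haveI : Fact (Nat.Prime 3) := ⟨Nat.prime_three⟩
  have hD3 : (D : ZMod 3) = 1 := by
    rw [← ZMod.intCast_mod D 3]
    have : D % ((3 : ℕ) : ℤ) = 1 := by exact_mod_cast hD
    rw [this]; exact Int.cast_one
  have hvs := vsum (p := 3) hA hB hC h
  have nz : ∀ {a : ℤ}, ¬ (3 : ℤ) ∣ a → (a : ZMod 3) ≠ 0 := by
    intro a ha h0
    exact ha (by exact_mod_cast (ZMod.intCast_zmod_eq_zero_iff_dvd a 3).1 h0)
  by_cases hb : (3 : ℤ) ∣ r + 16 * D * t ^ 2
  · have ht : ¬ (3 : ℤ) ∣ t := by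
      intro h'
      have h2 : (3 : ℤ) ∣ 16 * D * t ^ 2 := Dvd.dvd.mul_left (Dvd.dvd.pow h' two_ne_zero) _
      have h3 := dvd_sub hb h2
      rw [add_sub_cancel_right] at h3
      exact Int.prime_three.not_unit (hrt.isUnit_of_dvd' h3 h')
    have ht3 := nz ht
    obtain ⟨b, hb⟩ := hb
    have er : r = 3 * b - 16 * D * t ^ 2 := by linarith
    have hr3 : ¬ (3 : ℤ) ∣ r := by
      intro h'
      have h0 : (r : ZMod 3) = 0 := by
        have := (ZMod.intCast_zmod_eq_zero_iff_dvd r 3).2 (by exact_mod_cast h')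
        exact this
      rw [er] at h0
      push_cast at h0
      rw [hD3] at h0
      exact d3a _ _ ht3 h0
    have hvA : padicValInt 3 r = 0 := padicValInt.eq_zero_of_not_dvd (by exact_mod_cast hr3)
    by_cases hb3 : (3 : ℤ) ∣ b
    · obtain ⟨b', rfl⟩ := hb3
      have eB : r + 16 * D * t ^ 2 = ((3 : ℕ) : ℤ) ^ 2 * b' := by rw [hb]; push_cast; ring
      by_cases hb9 : (3 : ℤ) ∣ b'
      · have hu : ¬ ((3 : ℕ) : ℤ) ∣ b' + D * t ^ 2 := by
          intro h'
          have h'' : (3 : ℤ) ∣ b' + D * t ^ 2 := by exact_mod_cast h'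
          have h1 := dvd_sub h'' hb9
          rw [add_sub_cancel_left] at h1
          rcases Int.prime_three.dvd_or_dvd h1 with h2 | h2
          · omega
          · exact ht (Int.prime_three.dvd_of_dvd_pow h2)
        have eC : r + 25 * D * t ^ 2 = ((3 : ℕ) : ℤ) ^ 2 * (b' + D * t ^ 2) := by
          rw [er]; push_cast; ring
        have hvC : padicValInt 3 (r + 25 * D * t ^ 2) = 2 := by
          rw [eC]; exact val_of hu
        rw [Nat.not_odd_iff_even]
        exact ⟨padicValInt 3 s - 1, by omega⟩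
      · have hvB : padicValInt 3 (r + 16 * D * t ^ 2) = 2 := by
          rw [eB]; exact val_of (by exact_mod_cast hb9)
        rw [hvB]; decide
    · exfalso
      have hs3 : (3 : ℤ) ∣ s := by
        rw [← Int.pow_dvd_pow_iff (two_ne_zero : (2 : ℕ) ≠ 0), ← h]
        exact ⟨r * b * (b + 3 * D * t ^ 2), by rw [er]; ring⟩
      obtain ⟨s, rfl⟩ := hs3
      have h1 : r * b * (b + 3 * D * t ^ 2) = s ^ 2 := by
        have : (9 : ℤ) * (r * b * (b + 3 * D * t ^ 2)) = 9 * s ^ 2 := by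
          have e2 : r + 25 * D * t ^ 2 = 3 * (b + 3 * D * t ^ 2) := by rw [er]; ring
          rw [hb, e2] at h
          linear_combination h
        exact mul_left_cancel₀ (by norm_num) this
      rw [er] at h1
      have h2 := congrArg (Int.cast : ℤ → ZMod 3) h1
      push_cast at h2
      rw [hD3] at h2
      exact d3b _ _ _ (nz hb3) ht3 h2
  · have : padicValInt 3 (r + 16 * D * t ^ 2) = 0 :=
      padicValInt.eq_zero_of_not_dvd (by exact_mod_cast hb)
    rw [this]; decide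

theorem five {D r t s : ℤ} (hD : D % 5 = 1 ∨ D % 5 = 4) (hrt : IsCoprime r t) (hA : r ≠ 0)
    (hB : r + 16 * D * t ^ 2 ≠ 0) (hC : r + 25 * D * t ^ 2 ≠ 0)
    (h : r * (r + 16 * D * t ^ 2) * (r + 25 * D * t ^ 2) = s ^ 2) :
    ¬ Odd (padicValInt 5 (r + 16 * D * t ^ 2)) ∧ ps 5 (r + 16 * D * t ^ 2) = 1 := by
  haveI : Fact (Nat.Prime 5) := ⟨Nat.prime_five⟩
  have hvs := vsum (p := 5) hA hB hC h
  have hs : s ≠ 0 := by
    rintro rfl
    rw [zero_pow two_ne_zero] at h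
    exact mul_ne_zero (mul_ne_zero hA hB) hC h
  have hps := congrArg (ps 5) h
  rw [ps_mul (mul_ne_zero hA hB) hC, ps_mul hA hB, ps_sq hs] at hps
  by_cases hr : ((5 : ℕ) : ℤ) ∣ r
  · have ht := nd_of_coprime hrt hr
    have hDj : jacobiSym D 5 = 1 := by
      rw [jacobiSym.mod_left]
      have h5 : D % ((5 : ℕ) : ℤ) = 1 ∨ D % ((5 : ℕ) : ℤ) = 4 := by exact_mod_cast hD
      rcases h5 with h5 | h5
      · rw [h5]; norm_num
      · rw [h5]; norm_num
    have hDn : ¬ ((5 : ℕ) : ℤ) ∣ D := by push_cast; omega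
    have hj : jacobiSym (r + 16 * D * t ^ 2) 5 = 1 := by
      have h1 : jacobiSym (r + 16 * D * t ^ 2) 5 = jacobiSym (D * (4 * t) ^ 2) 5 := by
        refine jac_congr (p := 5) ?_
        have e : r + 16 * D * t ^ 2 - D * (4 * t) ^ 2 = r := by ring
        rw [e]; exact hr
      rw [h1, jac_mul_sq (p := 5) (nd_mul (by norm_num) ht), hDj]
    have hu : ¬ ((5 : ℕ) : ℤ) ∣ r + 16 * D * t ^ 2 := by
      intro h'
      have h1 := dvd_sub h' hr
      have e : r + 16 * D * t ^ 2 - r = D * (4 * t) ^ 2 := by ring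
      rw [e] at h1
      exact nd_mul hDn (nd_pow (nd_mul (by norm_num) ht) 2) h1
    rw [ps_unit hu, hj, val_unit hu]
    exact ⟨by decide, rfl⟩
  · have hC' : ((5 : ℕ) : ℤ) ∣ r + 25 * D * t ^ 2 - r := ⟨5 * D * t ^ 2, by push_cast; ring⟩
    have uC : ¬ ((5 : ℕ) : ℤ) ∣ r + 25 * D * t ^ 2 := by
      intro h'
      have := dvd_sub h' hC'
      rw [sub_sub_cancel] at this
      exact hr this
    have jC := jac_congr (p := 5) hC'
    rw [val_unit hr, val_unit uC] at hvs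
    rw [ps_unit hr, ps_unit uC, jC] at hps
    constructor
    · rw [Nat.not_odd_iff_even]
      exact ⟨padicValInt 5 s, by omega⟩
    · have := jac_mul_self (p := 5) hr
      have e : ps 5 (r + 16 * D * t ^ 2) =
          jacobiSym r 5 * ps 5 (r + 16 * D * t ^ 2) * jacobiSym r 5 := by
        linear_combination (-ps 5 (r + 16 * D * t ^ 2)) * this
      rw [e, hps]

theorem other_A {ℓ : ℕ} (hℓ : ℓ.Prime) {D r t s : ℤ} (h2 : ℓ ≠ 2) (h5 : ℓ ≠ 5) (hD : ¬ (ℓ : ℤ) ∣ D)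
    (hrt : IsCoprime r t) (hA : r ≠ 0)
    (hB : r + 16 * D * t ^ 2 ≠ 0) (hC : r + 25 * D * t ^ 2 ≠ 0)
    (h : r * (r + 16 * D * t ^ 2) * (r + 25 * D * t ^ 2) = s ^ 2) :
    ¬ Odd (padicValInt ℓ r) := by
  haveI : Fact ℓ.Prime := ⟨hℓ⟩
  have hvs := vsum (p := ℓ) hA hB hC h
  have n2 : ¬ (ℓ : ℤ) ∣ 2 := by
    intro h'
    exact h2 ((Nat.prime_dvd_prime_iff_eq hℓ Nat.prime_two).1 (by exact_mod_cast h'))
  have n5 : ¬ (ℓ : ℤ) ∣ 5 := by
    intro h'
    exact h5 ((Nat.prime_dvd_prime_iff_eq hℓ Nat.prime_five).1 (by exact_mod_cast h'))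
  by_cases hr : (ℓ : ℤ) ∣ r
  · have ht := nd_of_coprime hrt hr
    have uB : ¬ (ℓ : ℤ) ∣ r + 16 * D * t ^ 2 := by
      intro h'
      have h1 := dvd_sub h' hr
      have e : r + 16 * D * t ^ 2 - r = 2 ^ 4 * (D * t ^ 2) := by ring
      rw [e] at h1
      exact nd_mul (nd_pow n2 4) (nd_mul hD (nd_pow ht 2)) h1
    have uC : ¬ (ℓ : ℤ) ∣ r + 25 * D * t ^ 2 := by
      intro h'
      have h1 := dvd_sub h' hr
      have e : r + 25 * D * t ^ 2 - r = 5 ^ 2 * (D * t ^ 2) := by ring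
      rw [e] at h1
      exact nd_mul (nd_pow n5 2) (nd_mul hD (nd_pow ht 2)) h1
    rw [val_unit uB, val_unit uC] at hvs
    rw [Nat.not_odd_iff_even]
    exact ⟨padicValInt ℓ s, by omega⟩
  · rw [val_unit hr]; decide

theorem other_B {ℓ : ℕ} (hℓ : ℓ.Prime) {D r t s : ℤ} (h2 : ℓ ≠ 2) (h3 : ℓ ≠ 3) (hD : ¬ (ℓ : ℤ) ∣ D)
    (hrt : IsCoprime r t) (hA : r ≠ 0)
    (hB : r + 16 * D * t ^ 2 ≠ 0) (hC : r + 25 * D * t ^ 2 ≠ 0)
    (h : r * (r + 16 * D * t ^ 2) * (r + 25 * D * t ^ 2) = s ^ 2) :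
    ¬ Odd (padicValInt ℓ (r + 16 * D * t ^ 2)) := by
  haveI : Fact ℓ.Prime := ⟨hℓ⟩
  have hvs := vsum (p := ℓ) hA hB hC h
  have n2 : ¬ (ℓ : ℤ) ∣ 2 := by
    intro h'
    exact h2 ((Nat.prime_dvd_prime_iff_eq hℓ Nat.prime_two).1 (by exact_mod_cast h'))
  have n3 : ¬ (ℓ : ℤ) ∣ 3 := by
    intro h'
    exact h3 ((Nat.prime_dvd_prime_iff_eq hℓ Nat.prime_three).1 (by exact_mod_cast h'))
  by_cases hb : (ℓ : ℤ) ∣ r + 16 * D * t ^ 2
  · have ht : ¬ (ℓ : ℤ) ∣ t := by
      intro h'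
      have h2 : (ℓ : ℤ) ∣ 16 * D * t ^ 2 := Dvd.dvd.mul_left (Dvd.dvd.pow h' two_ne_zero) _
      have h3 := dvd_sub hb h2
      rw [add_sub_cancel_right] at h3
      exact pI.not_unit (hrt.isUnit_of_dvd' h3 h')
    have uA : ¬ (ℓ : ℤ) ∣ r := by
      intro h'
      have h1 := dvd_sub hb h'
      have e : r + 16 * D * t ^ 2 - r = 2 ^ 4 * (D * t ^ 2) := by ring
      rw [e] at h1
      exact nd_mul (nd_pow n2 4) (nd_mul hD (nd_pow ht 2)) h1
    have uC : ¬ (ℓ : ℤ) ∣ r + 25 * D * t ^ 2 := by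
      intro h'
      have h1 := dvd_sub h' hb
      have e : r + 25 * D * t ^ 2 - (r + 16 * D * t ^ 2) = 3 ^ 2 * (D * t ^ 2) := by ring
      rw [e] at h1
      exact nd_mul (nd_pow n3 2) (nd_mul hD (nd_pow ht 2)) h1
    rw [val_unit uA, val_unit uC] at hvs
    rw [Nat.not_odd_iff_even]
    exact ⟨padicValInt ℓ s, by omega⟩
  · rw [val_unit hb]; decide

end Pool.Agent.H468.X15
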