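import Pool.Agent.H468.X15.Loc
import Pool.Graph.R_pool_sql_team_seeded_620a6dc7.H757_X15.DN.Crit

/-!
# Symbols of squarefree numbers and the symbol at two
-/

set_option autoImplicit false
set_option linter.all false

open scoped Classical

namespace Pool.Agent.H468.X15

open Finset
open Pool.Agent.Y703.CQ (nr)
open Pool.Agent.H757_X15.DD (aa bb Fm Gd Sol Crit sI sI_add sI_eq sI_sum jac_nr jac_prod jac_five jac_neg)

theorem sI_inj {c d : ZMod 2} (h : sI c = sI d) : c = d := by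
  revert c d; decide

theorem sI_mul_self (c : ZMod 2) : sI c * sI c = 1 := by
  revert c; decide

theorem nr_self (p : ℕ) : nr p p = 0 := by
  unfold nr
  rw [if_pos]
  rw [ZMod.natCast_self]
  exact ⟨0, by simp⟩

/-- the reciprocity law -/
theorem nr_rec {p q : ℕ} (hp : p.Prime) (hq : q.Prime) (hp2 : p ≠ 2) (hq2 : q ≠ 2) (hne : p ≠ q) :
    nr p q = nr q p + aa p * aa q := by
  have hpo := hp.odd_of_ne_two hp2
  have hqo := hq.odd_of_ne_two hq2
  have h1 := Nat.odd_iff.1 hpo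
  have h2 := Nat.odd_iff.1 hqo
  apply sI_inj
  rw [sI_add, ← jac_nr hp hq hne, ← jac_nr hq hp (Ne.symm hne)]
  by_cases hp4 : p % 4 = 1
  · have : aa p = 0 := by unfold aa; rw [if_neg (by omega)]
    rw [this, zero_mul, jacobiSym.quadratic_reciprocity_one_mod_four hp4 hqo]
    simp [sI]
  · by_cases hq4 : q % 4 = 1
    · have : aa q = 0 := by unfold aa; rw [if_neg (by omega)]
      rw [this, mul_zero, jacobiSym.quadratic_reciprocity_one_mod_four hq4 hpo]
      simp [sI]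
    · have e1 : aa p = 1 := by unfold aa; rw [if_pos (by omega)]
      have e2 : aa q = 1 := by unfold aa; rw [if_pos (by omega)]
      rw [e1, e2, jacobiSym.quadratic_reciprocity_three_mod_four (by omega : q % 4 = 3)
        (by omega : p % 4 = 3)]
      simp [sI]

theorem nr_five {p : ℕ} (hp : p.Prime) (hp2 : p ≠ 2) (hp5 : p ≠ 5) : nr p 5 = bb p := by
  have hpo := hp.odd_of_ne_two hp2
  apply sI_inj
  have h5 : p % 5 ≠ 0 := fun h => hp5
    ((Nat.prime_dvd_prime_iff_eq (by norm_num) hp).1 (Nat.dvd_of_mod_eq_zero h)).symm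
  rw [← jac_nr hp (by norm_num) hp5, ← jac_five h5]
  exact jacobiSym.quadratic_reciprocity_one_mod_four (by norm_num) hpo

/-- the square part -/
theorem sqf_dec (n : ℤ) (hn : n ≠ 0) : ∃ (b : ℕ) (m : ℤ), Squarefree b ∧ m ≠ 0 ∧
    n = (if n < 0 then -1 else 1) * (b : ℤ) * m ^ 2 ∧
    ∀ q : ℕ, q.Prime → (q ∣ b ↔ Odd (padicValInt q n)) := by
  obtain ⟨b, m, hbm, hb⟩ := Nat.sq_mul_squarefree n.natAbs
  have hna : n.natAbs ≠ 0 := Int.natAbs_ne_zero.2 hn
  have hm0 : m ≠ 0 := by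
    rintro rfl
    rw [zero_pow two_ne_zero, zero_mul] at hbm
    exact hna hbm.symm
  have hb0 : b ≠ 0 := hb.ne_zero
  refine ⟨b, m, hb, by exact_mod_cast hm0, ?_, ?_⟩
  · have h1 : ((n.natAbs : ℕ) : ℤ) = (m : ℤ) ^ 2 * b := by rw [← hbm]; push_cast; ring
    by_cases h : n < 0
    · rw [if_pos h]
      have h2 : ((n.natAbs : ℕ) : ℤ) = -n := by omega
      linarith
    · rw [if_neg h]
      have h2 : ((n.natAbs : ℕ) : ℤ) = n := by omega
      linarith
  · intro q hq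
    haveI : Fact q.Prime := ⟨hq⟩
    have h1 : padicValInt q n = 2 * padicValNat q m + padicValNat q b := by
      unfold padicValInt
      rw [← hbm, padicValNat.mul (pow_ne_zero _ hm0) hb0, padicValNat.pow]
    have h2 : padicValNat q b ≤ 1 := by
      rw [← Nat.factorization_def b hq]
      exact hb.natFactorization_le_one q
    have h3 : q ∣ b ↔ 1 ≤ padicValNat q b := by
      constructor
      · intro h
        exact one_le_padicValNat_of_dvd hb0 h
      · intro h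
        exact dvd_of_one_le_padicValNat h
    rw [h3, h1]
    constructor
    · intro h
      exact ⟨padicValNat q m, by omega⟩
    · rintro ⟨k, hk⟩
      omega

/-- the symbol of a squarefree number at `p` -/
theorem ps_sqf {p : ℕ} (hp : p.Prime) {b : ℕ} (hb : Squarefree b) :
    ps p b = sI (∑ q ∈ b.primeFactors, nr p q) := by
  haveI : Fact p.Prime := ⟨hp⟩
  have hprod := Nat.prod_primeFactors_of_squarefree hb
  have hT : ∀ T : Finset ℕ, (∀ q ∈ T, q.Prime) → p ∉ T →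
      jacobiSym ((∏ q ∈ T, q : ℕ) : ℤ) p = sI (∑ q ∈ T, nr p q) ∧ ¬ (p : ℤ) ∣ ((∏ q ∈ T, q : ℕ) : ℤ) := by
    intro T hT hpT
    refine ⟨?_, ?_⟩
    · rw [jac_prod, sI_sum]
      exact prod_congr rfl fun q hq => jac_nr hp (hT q hq) (fun h => hpT (h ▸ hq))
    · intro h
      have h' : p ∣ ∏ q ∈ T, q := by exact_mod_cast h
      obtain ⟨q, hq, hpq⟩ := (Prime.dvd_finsetProd_iff hp.prime _).1 h'
      have := (Nat.prime_dvd_prime_iff_eq hp (hT q hq)).1 hpq
      exact hpT (this ▸ hq)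
  by_cases hpb : p ∈ b.primeFactors
  · have h1 := hT (b.primeFactors.erase p) (fun q hq => Nat.prime_of_mem_primeFactors
      (mem_of_mem_erase hq)) (notMem_erase _ _)
    have h2 : (b : ℤ) = (p : ℤ) * ((∏ q ∈ b.primeFactors.erase p, q : ℕ) : ℤ) := by
      rw [← Nat.cast_mul]
      have h5 := mul_prod_erase b.primeFactors (fun q => q) hpb
      rw [h5, hprod]
    have h3 : ∑ q ∈ b.primeFactors, nr p q = ∑ q ∈ b.primeFactors.erase p, nr p q := by
      rw [← add_sum_erase _ _ hpb, nr_self, zero_add]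
    rw [h2, ps_p h1.2, h1.1, h3]
  · have h1 := hT b.primeFactors (fun q hq => Nat.prime_of_mem_primeFactors hq) hpb
    rw [hprod] at h1
    rw [ps_unit h1.2, h1.1]

/-! ### the symbol at two -/

/-- the character modulo four of the odd part -/
noncomputable def p2 (n : ℤ) : ℤ := ZMod.χ₄ ((n / (2 : ℤ) ^ padicValInt 2 n : ℤ) : ZMod 4)

theorem p2_of {k : ℕ} {u : ℤ} (hu : ¬ (2 : ℤ) ∣ u) : p2 ((2 : ℤ) ^ k * u) = ZMod.χ₄ (u : ZMod 4) := by
  haveI : Fact (Nat.Prime 2) := ⟨Nat.prime_two⟩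
  unfold p2
  have h := val_of (p := 2) (k := k) (u := u) (by exact_mod_cast hu)
  have h' : padicValInt 2 ((2 : ℤ) ^ k * u) = k := by exact_mod_cast h
  rw [h', Int.mul_ediv_cancel_left _ (pow_ne_zero _ two_ne_zero)]

theorem p2_unit {u : ℤ} (hu : ¬ (2 : ℤ) ∣ u) : p2 u = ZMod.χ₄ (u : ZMod 4) := by
  have := p2_of (k := 0) hu
  rwa [pow_zero, one_mul] at this

theorem dec2 {n : ℤ} (hn : n ≠ 0) : ∃ u : ℤ, n = (2 : ℤ) ^ (padicValInt 2 n) * u ∧ ¬ (2 : ℤ) ∣ u := by
  haveI : Fact (Nat.Prime 2) := ⟨Nat.prime_two⟩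
  obtain ⟨u, h1, h2⟩ := dec (p := 2) hn
  exact ⟨u, by exact_mod_cast h1, by exact_mod_cast h2⟩

theorem nd2_mul {u w : ℤ} (hu : ¬ (2 : ℤ) ∣ u) (hw : ¬ (2 : ℤ) ∣ w) : ¬ (2 : ℤ) ∣ u * w := fun h =>
  (Int.prime_two.dvd_or_dvd h).elim hu hw

theorem p2_mul {m n : ℤ} (hm : m ≠ 0) (hn : n ≠ 0) : p2 (m * n) = p2 m * p2 n := by
  obtain ⟨u, hu, hu'⟩ := dec2 hm
  obtain ⟨w, hw, hw'⟩ := dec2 hn
  have e : m * n = (2 : ℤ) ^ (padicValInt 2 m + padicValInt 2 n) * (u * w) := by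
    calc m * n = ((2 : ℤ) ^ (padicValInt 2 m) * u) * ((2 : ℤ) ^ (padicValInt 2 n) * w) := by
          rw [← hu, ← hw]
      _ = _ := by rw [pow_add]; ring
  have e1 : p2 m = ZMod.χ₄ (u : ZMod 4) := by
    have := p2_of (k := padicValInt 2 m) hu'
    rwa [← hu] at this
  have e2 : p2 n = ZMod.χ₄ (w : ZMod 4) := by
    have := p2_of (k := padicValInt 2 n) hw'
    rwa [← hw] at this
  rw [e, p2_of (nd2_mul hu' hw'), e1, e2, Int.cast_mul, map_mul]

theorem chi_pm {u : ℤ} (hu : ¬ (2 : ℤ) ∣ u) :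
    ZMod.χ₄ (u : ZMod 4) = 1 ∨ ZMod.χ₄ (u : ZMod 4) = -1 := by
  have h1 : u % 4 = 1 ∨ u % 4 = 3 := by omega
  rcases h1 with h | h
  · left; exact ZMod.χ₄_int_one_mod_four h
  · right; exact ZMod.χ₄_int_three_mod_four h

theorem p2_pm {n : ℤ} (hn : n ≠ 0) : p2 n = 1 ∨ p2 n = -1 := by
  obtain ⟨u, hu, hu'⟩ := dec2 hn
  have e1 : p2 n = ZMod.χ₄ (u : ZMod 4) := by
    have := p2_of (k := padicValInt 2 n) hu'
    rwa [← hu] at this
  rw [e1]
  exact chi_pm hu'

theorem p2_sq {n : ℤ} (hn : n ≠ 0) : p2 (n ^ 2) = 1 := by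
  rw [sq, p2_mul hn hn]
  rcases p2_pm hn with h | h <;> rw [h] <;> norm_num

/-- the symbol of an odd squarefree number at two -/
theorem p2_sqf {b : ℕ} (hb : Squarefree b) (h2 : ¬ 2 ∣ b) :
    p2 b = sI (∑ q ∈ b.primeFactors, aa q) := by
  have hprod := Nat.prod_primeFactors_of_squarefree hb
  rw [p2_unit (by exact_mod_cast h2)]
  conv_lhs => rw [← hprod]
  rw [Nat.cast_prod, Int.cast_prod, map_prod, sI_sum]
  refine prod_congr rfl fun q hq => ?_
  have hqp := Nat.prime_of_mem_primeFactors hq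
  have hq2 : q ≠ 2 := by
    rintro rfl
    exact h2 (Nat.dvd_of_mem_primeFactors hq)
  have h1 := Nat.odd_iff.1 (hqp.odd_of_ne_two hq2)
  unfold aa sI
  by_cases h : q % 4 = 3
  · rw [if_pos h, if_neg one_ne_zero]
    exact ZMod.χ₄_nat_three_mod_four h
  · rw [if_neg h, if_pos rfl]
    exact ZMod.χ₄_nat_one_mod_four (by omega)

end Pool.Agent.H468.X15
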